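import Pool.Agent.H83.SCL.Defs
import Pool.Agent.H71.NT.UMach

/-!
Guess and check machines which read the input word: on input `w` the machine guesses a list `y` of
bits and then runs a structured program on the code of the reversed list of the numbers `ec a` of the
letters `a` of `w` and of `y`. Adapted from `Pool.Agent.H71.NT.UMach`.
-/

set_option linter.unusedSectionVars false

namespace Pool.Agent.H83.SCL

open Pool.Agent.Lead.NTM Pool.Agent.H71.NT Pool.Agent.H79.Cx Encodable Denumerable
open Pool.Agent.H83.NT (Pl words mem_words accv AL AL_iff AccL accv_iff Coding exists_coding P3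
  IsPi3 IndexSet exists_machine_of_desc mem_NTIMEPol_iff exists_time_bound closed_iff)
open Pool.Agent.H27.LD (aa ss uu mk3 inp EV exq Slowly)

namespace sclGuessW_UM

open Pool.Agent.H71.NT.UM (Ins icode ti ki ki_ti ti_ne ti_ki ti_inj Sy rdb stackTape stackTape_nil
  stackTape_push stackTape_top stackTape_pop tps pss rds rds_zero rds_ti cd_succ cd_zero update_len
  rdb_stackTape)

/-- The phases before the run of the program; `n a j`: the letter `a` was read, `j` bits of the code
of `ec a` have still to be written. -/
inductive Ph {A : Type} (ec : A → ℕ)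
  | i | a0 | a1 | a2 | a3 | a4 | b0 | c | acc
  | n (a : A) (j : Fin (2 * ec a + 1))

instance {A : Type} [Finite A] (ec : A → ℕ) : Finite (Ph ec) :=
  Finite.of_injective (fun m : Ph ec => (match m with
    | .i => Sum.inl 0 | .a0 => Sum.inl 1 | .a1 => Sum.inl 2 | .a2 => Sum.inl 3 | .a3 => Sum.inl 4
    | .a4 => Sum.inl 5 | .b0 => Sum.inl 6 | .c => Sum.inl 7 | .acc => Sum.inl 8
    | .n a j => Sum.inr ⟨a, j⟩ : Fin 9 ⊕ Σ a : A, Fin (2 * ec a + 1))) (by
      intro x y h
      cases x <;> cases y <;> simp_all)

variable {A : Type} [Finite A] {ec : A → ℕ} {p : H79.Cx.Prog}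

/-- States. -/
abbrev Qs {A : Type} (ec : A → ℕ) (p : H79.Cx.Prog) := Ph ec ⊕ (Option (L p) × Bool)

/-- Actions. -/
abbrev Act {A : Type} (ec : A → ℕ) (p : H79.Cx.Prog) := Qs ec p × (Fin 5 → Sy A) × (Fin 5 → Move)

/-- The action changing one stack tape and moving the input head. -/
def act1 (x : Fin 5 → Sy A) (q : Qs ec p) (k : K) (s : Sy A) (m m0 : Move) : Act ec p :=
  (q, fun j => if j = ti k then s else x j,
    fun j => if j = ti k then m else if j = 0 then m0 else .stay)

/-- The action of an instruction. -/
def dact (x : Fin 5 → Sy A) (l : L p) (f : Bool) : Ins (Option (L p)) → Act ec p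
  | .push k b l' => if f = true then act1 x (.inr (l', false)) k (some (.inr b)) .stay .stay
      else act1 x (.inr (some l, true)) k (x (ti k)) .right .stay
  | .pop k l' => act1 x (.inr (l', false)) k none
      (if (x (ti k)).isSome then .left else .stay) .stay
  | .test k t l₁ l₂ => act1 x (.inr (if t (rdb (x (ti k))) = true then l₁ else l₂, false))
      k (x (ti k)) .stay .stay

variable (ec p) in
/-- The transition relation. -/
def del (q : Qs ec p) (x : Fin 5 → Sy A) : Set (Act ec p) :=
  match q with
  | .inl .i => {act1 x (.inl .a0) .v (some (.inr false)) .right .stay}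
  | .inl .a0 => {act1 x (.inl .a1) .v (some (.inr false)) .right .stay,
      act1 x (.inl .a4) .v (some (.inr false)) .right .stay,
      act1 x (.inl .b0) .v (some (.inr false)) .right .stay}
  | .inl .a1 => {act1 x (.inl .a2) .v (some (.inr false)) .right .stay}
  | .inl .a2 => {act1 x (.inl .a3) .v (some (.inr true)) .right .stay}
  | .inl .a3 => {act1 x (.inl .a0) .v (some (.inr true)) .right .stay}
  | .inl .a4 => {act1 x (.inl .a0) .v (some (.inr true)) .right .stay}
  | .inl .b0 => {match x 0 with
      | some (.inl a) => act1 x (.inl (.n a (Fin.last (2 * ec a)))) .v (some (.inr false)) .right .stay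
      | _ => act1 x (.inl .c) .v (some (.inr true)) .right .stay}
  | .inl (.n a j) => {if (j : ℕ) = 0 then act1 x (.inl .b0) .v (some (.inr true)) .right .right
      else act1 x (.inl (.n a ⟨j - 1, by omega⟩)) .v (some (.inr (decide ((j : ℕ) % 2 = 1))))
        .right .stay}
  | .inl .c => {(.inr (some (entry p), false), x, fun j => if j = 0 then .stay else .left)}
  | .inl .acc => ∅
  | .inr (some l, f) => {dact x l f (icode p some none l)}
  | .inr (none, _) => if rdb (x (ti .v)) = some true then {(.inl .acc, x, fun _ => .stay)} else ∅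

variable (ec p) in
/-- The guess-and-check machine of a program. -/
def mach : Machine A where
  k := 4
  Q := Qs ec p
  finQ := inferInstance
  G := Bool
  finG := inferInstance
  start := .inl .i
  accepting := {.inl .acc}
  δ := del ec p

/-- Concrete configurations. -/
structure Cf {A : Type} (ec : A → ℕ) (p : H79.Cx.Prog) where
  st : Qs ec p
  tp : Fin 5 → ℤ → Sy A
  ps : Fin 5 → ℤ

/-- Concrete configurations as configurations. -/
def toC (c : Cf ec p) : Config (mach ec p) := ⟨c.st, c.tp, c.ps⟩

theorem toC_injective : Function.Injective (toC (ec := ec) (p := p)) := by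
  rintro ⟨s, t, q⟩ ⟨s', t', q'⟩ h
  have h1 : s = s' := congrArg Config.state h
  have h2 : t = t' := congrArg Config.tape h
  have h3 : q = q' := congrArg Config.pos h
  subst h1 h2 h3
  rfl

theorem toC_surjective : Function.Surjective (toC (ec := ec) (p := p)) :=
  fun c => ⟨⟨c.state, c.tape, c.pos⟩, rfl⟩

/-- Configurations. -/
def mk (ec : A → ℕ) (p : H79.Cx.Prog) (w : List A) (q : Qs ec p) (i : ℤ) (S : St) (P : K → ℤ) : Cf ec p where
  st := q
  tp := tps w S
  ps := pss i P

/-- The configuration after an action. -/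
def appA (c : Cf ec p) (r : Act ec p) : Cf ec p where
  st := r.1
  tp := fun j => Function.update (c.tp j) (c.ps j) (r.2.1 j)
  ps := fun j => c.ps j + (r.2.2 j).toInt

/-- One step of concrete configurations. -/
def CStep (c c' : Cf ec p) : Prop :=
  ∃ r ∈ del ec p c.st (fun j => c.tp j (c.ps j)), c' = appA c r

theorem step_iff (c c' : Cf ec p) : Step (mach ec p) (toC c) (toC c') ↔ CStep c c' := by
  constructor
  · rintro ⟨r, hr, h1, h2, h3⟩
    refine ⟨r, hr, ?_⟩
    obtain ⟨st, tp, ps⟩ := c'
    have h1' : st = r.1 := h1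
    have h2' : tp = (fun i => Function.update (c.tp i) (c.ps i) (r.2.1 i)) := h2
    have h3' : ps = (fun i => c.ps i + (r.2.2 i).toInt) := h3
    subst h1' h2' h3'
    rfl
  · rintro ⟨r, hr, rfl⟩
    exact ⟨r, hr, rfl, rfl, rfl⟩

theorem step_mk (w : List A) (q : Qs ec p) (i : ℤ) (S : St) (P : K → ℤ) (c' : Cf ec p) :
    CStep (mk ec p w q i S P) c' ↔
      ∃ r ∈ del ec p q (rds w i S P), c' = appA (mk ec p w q i S P) r := Iff.rfl

theorem appA_act1 (w : List A) (q q' : Qs ec p) (i : ℤ) (S : St) (P : K → ℤ) (k : K) (s : Sy A)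
    (m m0 : Move) (l' : List Bool)
    (h : Function.update (stackTape (S k)) (P k) s = stackTape l') :
    appA (mk ec p w q i S P) (act1 (rds w i S P) q' k s m m0) =
      mk ec p w q' (i + m0.toInt) (Function.update S k l')
        (Function.update P k (P k + m.toInt)) := by
  unfold appA mk act1
  congr 1
  · funext j
    simp only
    by_cases hj : j = ti k
    · subst hj
      rw [if_pos rfl]
      simp only [tps, pss, ti_ne, if_false, ki_ti, Function.update_self]
      exact h
    · rw [if_neg hj]
      by_cases h0 : j = 0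
      · subst h0
        exact Function.update_eq_self _ _
      · have hk : ki j ≠ k := by
          intro hk
          exact hj (by rw [← hk, ti_ki j h0])
        have : tps w (Function.update S k l') j = (tps w S j : ℤ → Sy A) := by
          simp only [tps, if_neg h0, Function.update_of_ne hk]
        rw [this]
        exact Function.update_eq_self _ _
  · funext j
    simp only
    by_cases hj : j = ti k
    · subst hj
      simp [pss]
    · by_cases h0 : j = 0
      · subst h0
        rw [if_neg hj, if_pos rfl]
        rfl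
      · have hk : ki j ≠ k := by
          intro hk
          exact hj (by rw [← hk, ti_ki j h0])
        rw [if_neg hj, if_neg h0]
        simp only [pss, if_neg h0, Function.update_of_ne hk, Move.toInt, add_zero]

/-! ### Paths -/

/-- Reachability in exactly `s` steps. -/
def CReach : ℕ → Cf ec p → Cf ec p → Prop
  | 0, c, e => e = c
  | s + 1, c, e => ∃ d, CStep c d ∧ CReach s d e

/-- Deterministic reachability in exactly `s` steps. -/
def DIn : ℕ → Cf ec p → Cf ec p → Prop
  | 0, c, e => e = c
  | s + 1, c, e => ∃ d, (∀ f, CStep c f ↔ f = d) ∧ DIn s d e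

theorem CReach.trans {s t : ℕ} {c d e : Cf ec p} (h1 : CReach s c d) (h2 : CReach t d e) :
    CReach (s + t) c e := by
  induction s generalizing c with
  | zero =>
    have : d = c := h1
    subst this
    rwa [Nat.zero_add]
  | succ s ih =>
    obtain ⟨f, hf, h1⟩ := h1
    rw [Nat.add_right_comm]
    exact ⟨f, hf, ih h1⟩

theorem DIn.trans {s t : ℕ} {c d e : Cf ec p} (h1 : DIn s c d) (h2 : DIn t d e) :
    DIn (s + t) c e := by
  induction s generalizing c with
  | zero =>
    have : d = c := h1
    subst this
    rwa [Nat.zero_add]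
  | succ s ih =>
    obtain ⟨f, hf, h1⟩ := h1
    rw [Nat.add_right_comm]
    exact ⟨f, hf, ih h1⟩

theorem DIn.creach {s : ℕ} {c d : Cf ec p} (h : DIn s c d) : CReach s c d := by
  induction s generalizing c with
  | zero => exact h
  | succ s ih =>
    obtain ⟨f, hf, h⟩ := h
    exact ⟨f, (hf f).2 rfl, ih h⟩

/-- A path either stops before the end of a deterministic path, or continues it. -/
theorem DIn.cases {s t : ℕ} {c d e : Cf ec p} (h : DIn s c d) (h2 : CReach t c e) :
    (∃ f, CStep e f) ∨ ∃ u, t = s + u ∧ CReach u d e := by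
  induction s generalizing c t with
  | zero =>
    have : d = c := h
    subst this
    exact Or.inr ⟨t, by omega, h2⟩
  | succ s ih =>
    obtain ⟨f, hf, h⟩ := h
    cases t with
    | zero =>
      have : e = c := h2
      subst this
      exact Or.inl ⟨f, (hf f).2 rfl⟩
    | succ t =>
      obtain ⟨g, hg, h2⟩ := h2
      rw [hf] at hg
      subst hg
      rcases ih h h2 with h3 | ⟨u, hu, h3⟩
      · exact Or.inl h3
      · exact Or.inr ⟨u, by omega, h3⟩

theorem CReach.snoc {s : ℕ} {c e : Cf ec p} :
    CReach (s + 1) c e ↔ ∃ d, CReach s c d ∧ CStep d e := by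
  induction s generalizing c with
  | zero =>
    constructor
    · rintro ⟨d, hd, h⟩
      have : e = d := h
      subst this
      exact ⟨c, rfl, hd⟩
    · rintro ⟨d, hd, h⟩
      have : d = c := hd
      subst this
      exact ⟨e, h, rfl⟩
  | succ s ih =>
    constructor
    · rintro ⟨d, hd, h⟩
      obtain ⟨f, hf, h⟩ := ih.1 h
      exact ⟨f, ⟨d, hd, hf⟩, h⟩
    · rintro ⟨f, ⟨d, hd, hf⟩, h⟩
      exact ⟨d, hd, ih.2 ⟨f, hf, h⟩⟩

theorem reachIn_toC (s : ℕ) (c e : Cf ec p) :
    ReachIn (mach ec p) (toC c) s (toC e) ↔ CReach s c e := by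
  induction s generalizing e with
  | zero => exact toC_injective.eq_iff
  | succ s ih =>
    rw [CReach.snoc]
    constructor
    · rintro ⟨d, h1, h2⟩
      obtain ⟨d, rfl⟩ := toC_surjective d
      exact ⟨d, (ih d).1 h1, (step_iff d e).1 h2⟩
    · rintro ⟨d, h1, h2⟩
      exact ⟨toC d, (ih d).2 h1, (step_iff d e).2 h2⟩

/-- The starting configuration. -/
def start (ec : A → ℕ) (p : H79.Cx.Prog) (w : List A) : Cf ec p := mk ec p w (.inl .i) 0 (fun _ => []) (fun _ => 0)

theorem toC_start (w : List A) : toC (start ec p w) = startConfig (mach ec p) w := by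
  unfold start mk toC startConfig
  congr 1
  · funext j
    have h : tps w (fun _ => []) j = if j = 0 then (wordTape w : ℤ → Sy A) else fun _ => none := by
      unfold tps
      rw [stackTape_nil]
    exact h
  · funext j
    have h : pss 0 (fun _ => 0) j = 0 := by
      unfold pss
      split_ifs <;> rfl
    exact h

theorem acceptsIn_mach (w : List A) (s : ℕ) :
    AcceptsIn (mach ec p) w s ↔ ∃ e, CReach s (start ec p w) e ∧ e.st = .inl .acc := by
  rw [acceptsIn_iff, ← toC_start]
  constructor
  · rintro ⟨d, h1, h2⟩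
    obtain ⟨d, rfl⟩ := toC_surjective d
    exact ⟨d, (reachIn_toC s _ d).1 h1, h2⟩
  · rintro ⟨d, h1, h2⟩
    exact ⟨toC d, (reachIn_toC s _ d).2 h1, h2⟩

/-! ### The deterministic phase -/

/-- Configurations of the deterministic phase. -/
def dcfg (ec : A → ℕ) (p : H79.Cx.Prog) (w : List A) (l : Option (L p)) (S : St) : Cf ec p :=
  mk ec p w (.inr (l, false)) w.length S (fun k => ((S k).length : ℤ) - 1)

/-- A single deterministic step. -/
theorem DIn.one {c d : Cf ec p} (h : ∀ f, CStep c f ↔ f = d) : DIn 1 c d := ⟨d, h, rfl⟩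

theorem step_single (w : List A) (q : Qs ec p) (i : ℤ) (S : St) (P : K → ℤ) (r : Act ec p)
    (h : del ec p q (rds w i S P) = {r}) (f : Cf ec p) :
    CStep (mk ec p w q i S P) f ↔ f = appA (mk ec p w q i S P) r := by
  rw [step_mk, h]
  simp

theorem run_push (w : List A) (l : L p) (k : K) (b : Bool) (l' : Option (L p)) (S : St)
    (h : icode p some none l = .push k b l') :
    DIn 2 (dcfg ec p w (some l) S) (dcfg ec p w l' (Function.update S k (b :: S k))) := by
  refine ⟨mk ec p w (.inr (some l, true)) w.length S
    (Function.update (fun k => ((S k).length : ℤ) - 1) k (S k).length), ?_, ?_⟩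
  · intro f
    unfold dcfg
    rw [step_single (r := act1 (rds w w.length S fun k => ((S k).length : ℤ) - 1)
      (.inr (some l, true)) k (rds w w.length S (fun k => ((S k).length : ℤ) - 1) (ti k))
      .right .stay)]
    · rw [appA_act1 (l' := S k)]
      · rw [Function.update_eq_self]
        simp [Move.toInt]
      · rw [rds_ti]
        exact Function.update_eq_self _ _
    · simp only [del, h, dact]
      rfl
  · refine ⟨_, ?_, rfl⟩
    intro f
    rw [step_single (r := act1 (rds w w.length S
      (Function.update (fun k => ((S k).length : ℤ) - 1) k (S k).length))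
      (.inr (l', false)) k (some (.inr b)) .stay .stay)]
    · rw [appA_act1 (l' := b :: S k)]
      · unfold dcfg
        rw [update_len]
        simp [Move.toInt]
      · rw [Function.update_self]
        exact stackTape_push _ _
    · simp only [del, h, dact]
      rfl

theorem run_pop (w : List A) (l : L p) (k : K) (l' : Option (L p)) (S : St)
    (h : icode p some none l = .pop k l') :
    DIn 1 (dcfg ec p w (some l) S) (dcfg ec p w l' (Function.update S k (S k).tail)) := by
  refine DIn.one fun f => ?_
  unfold dcfg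
  rw [step_single (r := act1 (rds w w.length S fun k => ((S k).length : ℤ) - 1)
      (.inr (l', false)) k none
      (if ((rds w w.length S (fun k => ((S k).length : ℤ) - 1)) (ti k)).isSome then .left
        else .stay) .stay)]
  · rw [appA_act1 (l' := (S k).tail)]
    · rw [update_len, rds_ti, stackTape_top]
      cases hS : S k with
      | nil => simp [Move.toInt]
      | cons b t => simp [Move.toInt, sub_eq_add_neg]
    · exact stackTape_pop _
  · simp only [del, h, dact]

theorem run_test (w : List A) (l : L p) (k : K) (t : Option Bool → Bool) (l₁ l₂ : Option (L p))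
    (S : St) (h : icode p some none l = .test k t l₁ l₂) :
    DIn 1 (dcfg ec p w (some l) S) (dcfg ec p w (if t (S k).head? = true then l₁ else l₂) S) := by
  refine DIn.one fun f => ?_
  unfold dcfg
  rw [step_single (r := act1 (rds w w.length S fun k => ((S k).length : ℤ) - 1)
      (.inr (if t (rdb (rds w w.length S (fun k => ((S k).length : ℤ) - 1) (ti k))) = true
        then l₁ else l₂, false)) k
      (rds w w.length S (fun k => ((S k).length : ℤ) - 1) (ti k)) .stay .stay)]
  · rw [appA_act1 (l' := S k)]
    · rw [Function.update_eq_self, rds_ti, rdb_stackTape]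
      simp [Move.toInt]
    · rw [rds_ti]
      exact Function.update_eq_self _ _
  · simp only [del, h, dact]

/-- **Simulation of a structured program.** -/
theorem drun (w : List A) {q : H79.Cx.Prog} {S S' : St} {n : ℕ} (h : Run q S S' n) :
    ∀ (ι : L q → L p) (ex : Option (L p)),
      (∀ l, icode p some none (ι l) = icode q (fun l => some (ι l)) ex l) →
      ∃ m ≤ 2 * n, DIn m (dcfg ec p w (some (ι (entry q))) S) (dcfg ec p w ex S') := by
  induction h with
  | push k b S =>
    intro ι ex hM
    exact ⟨2, by omega, run_push w _ k b ex S (hM _)⟩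
  | pop k S =>
    intro ι ex hM
    exact ⟨1, by omega, run_pop w _ k ex S (hM _)⟩
  | @seq p' q' S S' S'' m n h1 h2 ih1 ih2 =>
    intro ι ex hM
    obtain ⟨m1, hm1, e1⟩ := ih1 (fun l => ι (Sum.inl l)) (some (ι (Sum.inr (entry q'))))
      (fun l => hM (Sum.inl l))
    obtain ⟨m2, hm2, e2⟩ := ih2 (fun l => ι (Sum.inr l)) ex (fun l => hM (Sum.inr l))
    exact ⟨m1 + m2, by omega, e1.trans e2⟩
  | @iteT k t p' q' S S' n ht h ih =>
    intro ι ex hM
    obtain ⟨m1, hm1, e1⟩ := ih (fun l => ι (some (Sum.inl l))) ex
      (fun l => hM (some (Sum.inl l)))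
    have e0 := run_test (ec := ec) w (ι (entry (.ite k t p' q'))) k t _ _ S (hM none)
    rw [if_pos ht] at e0
    exact ⟨1 + m1, by omega, e0.trans e1⟩
  | @iteF k t p' q' S S' n ht h ih =>
    intro ι ex hM
    obtain ⟨m1, hm1, e1⟩ := ih (fun l => ι (some (Sum.inr l))) ex
      (fun l => hM (some (Sum.inr l)))
    have e0 := run_test (ec := ec) w (ι (entry (.ite k t p' q'))) k t _ _ S (hM none)
    rw [if_neg (by simp [ht])] at e0
    exact ⟨1 + m1, by omega, e0.trans e1⟩
  | @loopF k t p' S ht =>
    intro ι ex hM
    have e0 := run_test (ec := ec) w (ι (entry (.loop k t p'))) k t _ _ S (hM none)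
    rw [if_neg (by simp [ht])] at e0
    exact ⟨1, by omega, e0⟩
  | @loopT k t p' S S' S'' m n ht h1 h2 ih1 ih2 =>
    intro ι ex hM
    have e0 := run_test (ec := ec) w (ι (entry (.loop k t p'))) k t _ _ S (hM none)
    rw [if_pos ht] at e0
    obtain ⟨m1, hm1, e1⟩ := ih1 (fun l => ι (some l)) (some (ι none)) (fun l => hM (some l))
    obtain ⟨m2, hm2, e2⟩ := ih2 ι ex hM
    exact ⟨1 + m1 + m2, by omega, (e0.trans e1).trans e2⟩

/-! ### The first phases -/

/-- Configurations of the first phases. -/
def pcf (ec : A → ℕ) (p : H79.Cx.Prog) (w : List A) (q : Ph ec) (i : ℕ) (l : List Bool) : Cf ec p :=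
  mk ec p w (.inl q) i (st l [] [] []) (fun k => ((st l [] [] [] k).length : ℤ))

theorem app_pcf (w : List A) (q q' : Ph ec) (i : ℕ) (l : List Bool) (b : Bool) (m0 : Move) :
    appA (pcf ec p w q i l) (act1 (rds w i (st l [] [] [])
      (fun k => ((st l [] [] [] k).length : ℤ))) (.inl q') .v (some (.inr b)) .right m0) =
      mk ec p w (.inl q') (i + m0.toInt) (st (b :: l) [] [] [])
        (fun k => ((st (b :: l) [] [] [] k).length : ℤ)) := by
  unfold pcf
  rw [appA_act1 (l' := b :: l)]
  · rw [update_v]
    congr 1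
    funext k
    cases k <;> simp [Move.toInt, Function.update]
  · exact stackTape_push _ _

theorem start_eq (w : List A) : start ec p w = pcf ec p w .i 0 [] := by
  unfold start pcf mk
  congr 1
  · unfold tps
    funext j
    have : (fun _ => [] : St) = st [] [] [] [] := by
      funext k; cases k <;> rfl
    rw [this]
  · funext j
    unfold pss
    split_ifs
    · rfl
    · cases ki j <;> rfl

theorem step_i (w : List A) (l : List Bool) (f : Cf ec p) :
    CStep (pcf ec p w .i 0 l) f ↔ f = pcf ec p w .a0 0 (false :: l) := by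
  unfold pcf
  rw [step_single (h := rfl)]
  have := app_pcf (ec := ec) (p := p) w .i .a0 0 l false .stay
  unfold pcf at this
  rw [this]
  simp [Move.toInt]

theorem step_a0 (w : List A) (l : List Bool) (f : Cf ec p) :
    CStep (pcf ec p w .a0 0 l) f ↔ f = pcf ec p w .a1 0 (false :: l) ∨ f = pcf ec p w .a4 0 (false :: l) ∨
      f = pcf ec p w .b0 0 (false :: l) := by
  have h1 := app_pcf (ec := ec) (p := p) w .a0 .a1 0 l false .stay
  have h2 := app_pcf (ec := ec) (p := p) w .a0 .a4 0 l false .stay
  have h3 := app_pcf (ec := ec) (p := p) w .a0 .b0 0 l false .stay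
  unfold pcf at h1 h2 h3 ⊢
  rw [step_mk]
  simp only [del, Set.mem_insert_iff, Set.mem_singleton_iff]
  constructor
  · rintro ⟨r, rfl | rfl | rfl, rfl⟩
    · left; rw [h1]; simp [Move.toInt]
    · right; left; rw [h2]; simp [Move.toInt]
    · right; right; rw [h3]; simp [Move.toInt]
  · rintro (rfl | rfl | rfl)
    · exact ⟨_, Or.inl rfl, by rw [h1]; simp [Move.toInt]⟩
    · exact ⟨_, Or.inr (Or.inl rfl), by rw [h2]; simp [Move.toInt]⟩
    · exact ⟨_, Or.inr (Or.inr rfl), by rw [h3]; simp [Move.toInt]⟩

theorem step_a1 (w : List A) (l : List Bool) (f : Cf ec p) :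
    CStep (pcf ec p w .a1 0 l) f ↔ f = pcf ec p w .a2 0 (false :: l) := by
  unfold pcf
  rw [step_single (h := rfl)]
  have := app_pcf (ec := ec) (p := p) w .a1 .a2 0 l false .stay
  unfold pcf at this
  rw [this]
  simp [Move.toInt]

theorem step_a2 (w : List A) (l : List Bool) (f : Cf ec p) :
    CStep (pcf ec p w .a2 0 l) f ↔ f = pcf ec p w .a3 0 (true :: l) := by
  unfold pcf
  rw [step_single (h := rfl)]
  have := app_pcf (ec := ec) (p := p) w .a2 .a3 0 l true .stay
  unfold pcf at this
  rw [this]
  simp [Move.toInt]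

theorem step_a3 (w : List A) (l : List Bool) (f : Cf ec p) :
    CStep (pcf ec p w .a3 0 l) f ↔ f = pcf ec p w .a0 0 (true :: l) := by
  unfold pcf
  rw [step_single (h := rfl)]
  have := app_pcf (ec := ec) (p := p) w .a3 .a0 0 l true .stay
  unfold pcf at this
  rw [this]
  simp [Move.toInt]

theorem step_a4 (w : List A) (l : List Bool) (f : Cf ec p) :
    CStep (pcf ec p w .a4 0 l) f ↔ f = pcf ec p w .a0 0 (true :: l) := by
  unfold pcf
  rw [step_single (h := rfl)]
  have := app_pcf (ec := ec) (p := p) w .a4 .a0 0 l true .stay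
  unfold pcf at this
  rw [this]
  simp [Move.toInt]

theorem step_b0_lt (w : List A) (i : ℕ) (hi : i < w.length) (l : List Bool) (f : Cf ec p) :
    CStep (pcf ec p w .b0 i l) f ↔
      f = pcf ec p w (.n w[i] (Fin.last (2 * ec w[i]))) i (false :: l) := by
  unfold pcf
  rw [step_single (r := act1 (rds w i (st l [] [] [])
      (fun k => ((st l [] [] [] k).length : ℤ))) (.inl (.n w[i] (Fin.last (2 * ec w[i])))) .v
      (some (.inr false)) .right .stay)]
  · have := app_pcf (ec := ec) (p := p) w .b0 (.n w[i] (Fin.last (2 * ec w[i]))) i l false .stay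
    unfold pcf at this
    rw [this]
    simp [Move.toInt]
  · have h0 : ((rds w i (st l [] [] []) (fun k => ((st l [] [] [] k).length : ℤ)) 0 :
        Sy A)) = some (.inl w[i]) := by
      rw [rds_zero]
      simp [wordTape, hi]
    simp only [del, h0]

theorem step_b0_end (w : List A) (l : List Bool) (f : Cf ec p) :
    CStep (pcf ec p w .b0 w.length l) f ↔ f = pcf ec p w .c w.length (true :: l) := by
  unfold pcf
  rw [step_single (r := act1 (rds w w.length (st l [] [] [])
      (fun k => ((st l [] [] [] k).length : ℤ))) (.inl .c) .v (some (.inr true)) .right .stay)]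
  · have := app_pcf (ec := ec) (p := p) w .b0 .c w.length l true .stay
    unfold pcf at this
    rw [this]
    simp [Move.toInt]
  · have h0 : ((rds w w.length (st l [] [] []) (fun k => ((st l [] [] [] k).length : ℤ)) 0 :
        Sy A)) = none := by
      rw [rds_zero]
      simp [wordTape]
    simp only [del, h0]

theorem step_n_zero (w : List A) (i : ℕ) (a : A) (j : Fin (2 * ec a + 1)) (hj : (j : ℕ) = 0)
    (l : List Bool) (f : Cf ec p) :
    CStep (pcf ec p w (.n a j) i l) f ↔ f = pcf ec p w .b0 (i + 1) (true :: l) := by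
  unfold pcf
  rw [step_single (r := act1 (rds w i (st l [] [] [])
      (fun k => ((st l [] [] [] k).length : ℤ))) (.inl .b0) .v (some (.inr true)) .right .right)]
  · have := app_pcf (ec := ec) (p := p) w (.n a j) .b0 i l true .right
    unfold pcf at this
    rw [this]
    simp [Move.toInt]
  · simp only [del, if_pos hj]

theorem step_n_succ (w : List A) (i : ℕ) (a : A) (j : Fin (2 * ec a + 1)) (hj : (j : ℕ) ≠ 0)
    (l : List Bool) (f : Cf ec p) :
    CStep (pcf ec p w (.n a j) i l) f ↔ f = pcf ec p w (.n a ⟨j - 1, by omega⟩) i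
      (decide ((j : ℕ) % 2 = 1) :: l) := by
  unfold pcf
  rw [step_single (r := act1 (rds w i (st l [] [] [])
      (fun k => ((st l [] [] [] k).length : ℤ))) (.inl (.n a ⟨j - 1, by omega⟩)) .v
      (some (.inr (decide ((j : ℕ) % 2 = 1)))) .right .stay)]
  · have := app_pcf (ec := ec) (p := p) w (.n a j) (.n a ⟨j - 1, by omega⟩) i l (decide ((j : ℕ) % 2 = 1))
      .stay
    unfold pcf at this
    rw [this]
    simp [Move.toInt]
  · simp only [del, if_neg hj]

theorem step_c (w : List A) (l : List Bool) (f : Cf ec p) :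
    CStep (pcf ec p w .c w.length l) f ↔ f = dcfg ec p w (some (entry p)) (st l [] [] []) := by
  unfold pcf
  rw [step_single (h := rfl)]
  have : appA (mk ec p w (.inl .c) w.length (st l [] [] [])
      (fun k => ((st l [] [] [] k).length : ℤ)))
      (.inr (some (entry p), false), rds w w.length (st l [] [] [])
      (fun k => ((st l [] [] [] k).length : ℤ)), fun j => if j = 0 then .stay else .left) =
      dcfg ec p w (some (entry p)) (st l [] [] []) := by
    unfold appA dcfg mk
    congr 1
    · funext j
      exact Function.update_eq_self _ _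
    · funext j
      simp only [pss]
      split_ifs
      · simp [Move.toInt]
      · simp [Move.toInt, sub_eq_add_neg]
  rw [this]

theorem step_exit (w : List A) (S : St) (f : Cf ec p) :
    CStep (dcfg ec p w none S) f ↔ (S .v).head? = some true ∧
      f = mk ec p w (.inl .acc) w.length S (fun k => ((S k).length : ℤ) - 1) := by
  unfold dcfg
  rw [step_mk]
  have h1 : rdb ((rds w w.length S (fun k => ((S k).length : ℤ) - 1) (ti .v) : Sy A)) =
      (S .v).head? := by
    rw [rds_ti, rdb_stackTape]
  have h2 : appA (mk ec p w (.inr (none, false)) w.length S (fun k => ((S k).length : ℤ) - 1))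
      (.inl .acc, rds w w.length S (fun k => ((S k).length : ℤ) - 1), fun _ => .stay) =
      mk ec p w (.inl .acc) w.length S (fun k => ((S k).length : ℤ) - 1) := by
    unfold appA mk
    congr 1
    · funext j
      exact Function.update_eq_self _ _
    · funext j
      simp [Move.toInt]
  constructor
  · rintro ⟨r, hr, rfl⟩
    simp only [del, h1] at hr
    split_ifs at hr with h
    · rw [Set.mem_singleton_iff] at hr
      subst hr
      exact ⟨h, h2⟩
    · exact absurd hr (by simp)
  · rintro ⟨h, rfl⟩
    refine ⟨_, ?_, h2.symm⟩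
    simp only [del, h1]
    rw [if_pos h]
    rfl

theorem step_acc (c f : Cf ec p) (hc : c.st = .inl .acc) : ¬ CStep c f := by
  rintro ⟨r, hr, -⟩
  rw [hc] at hr
  exact hr

/-! ### Acceptance -/

section Main

variable {f : List ℕ × List Bool → Bool} {P : Polynomial ℕ}
  (hp : ∀ x : List ℕ × List Bool, RunLe p (st (cd x) [] [] []) (st (cd (f x)) [] [] [])
    (P.eval (sz x)))

theorem din_start (w : List A) : DIn 1 (start ec p w) (pcf ec p w .a0 0 (cd ([] : List Bool))) := by
  rw [start_eq]
  exact DIn.one fun f => step_i w [] f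

theorem din_true (w : List A) (y : List Bool) :
    DIn 3 (pcf ec p w .a1 0 (false :: cd y)) (pcf ec p w .a0 0 (cd (true :: y))) :=
  ⟨_, step_a1 w _, _, step_a2 w _, _, step_a3 w _, rfl⟩

theorem din_false (w : List A) (y : List Bool) :
    DIn 1 (pcf ec p w .a4 0 (false :: cd y)) (pcf ec p w .a0 0 (cd (false :: y))) :=
  ⟨_, step_a4 w _, rfl⟩

theorem din_n (w : List A) (i : ℕ) (a : A) (k : ℕ) (hk : k ≤ ec a) (l : List Bool) :
    DIn (2 * k + 1) (pcf ec p w (.n a ⟨2 * k, by omega⟩) i l)
      (pcf ec p w .b0 (i + 1) (true :: ((List.replicate k [true, false]).flatten ++ l))) := by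
  induction k generalizing l with
  | zero => exact DIn.one fun f => step_n_zero w i a _ rfl l f
  | succ k ih =>
    have h1 := ih (by omega) (true :: false :: l)
    have e1 : (List.replicate (k + 1) [true, false]).flatten ++ l =
        (List.replicate k [true, false]).flatten ++ true :: false :: l := by
      rw [List.replicate_succ', List.flatten_append]
      simp
    rw [e1]
    refine ⟨_, fun f => step_n_succ w i a ⟨2 * (k + 1), by omega⟩ (by simp) l f,
      _, fun f => step_n_succ w i a _ (by show 2 * (k + 1) - 1 ≠ 0; omega) _ f, ?_⟩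
    have e2 : decide (((⟨2 * (k + 1), by omega⟩ : Fin (2 * ec a + 1)) : ℕ) % 2 = 1) = false := by
      simp
    have e3 : decide (((⟨2 * (k + 1) - 1, by omega⟩ : Fin (2 * ec a + 1)) : ℕ) % 2 = 1) = true := by
      simp
      omega
    simp only [e2, e3]
    exact h1

theorem cd_eq (k : ℕ) : cd k = (List.replicate k [true, false]).flatten ++ [false] := by
  induction k with
  | zero => rfl
  | succ k ih =>
    rw [cd_succ, ih]
    simp [List.replicate_succ]

theorem cd_cons (k : ℕ) (l : List ℕ) : cd (k :: l) = true :: (cd k ++ cd l) := rfl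

theorem din_letter (w : List A) (i : ℕ) (hi : i < w.length) (l : List ℕ) (y : List Bool) :
    DIn (2 * ec w[i] + 2) (pcf ec p w .b0 i (cd l ++ cd y))
      (pcf ec p w .b0 (i + 1) (cd (ec w[i] :: l) ++ cd y)) := by
  refine ⟨_, step_b0_lt w i hi _, ?_⟩
  have h := din_n (p := p) w i w[i] (ec w[i]) le_rfl (false :: (cd l ++ cd y))
  have e1 : cd (ec w[i] :: l) ++ cd y =
      true :: ((List.replicate (ec w[i]) [true, false]).flatten ++ false :: (cd l ++ cd y)) := by
    rw [cd_cons, cd_eq]
    simp
  rw [e1]
  exact h

theorem sz_snoc (l : List ℕ) (a : ℕ) : sz (l ++ [a]) = sz l + (2 * a + 2) := by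
  induction l with
  | nil => simp [sz_nat]; ring
  | cons b l ih =>
    rw [List.cons_append, sz_cons, sz_cons, ih]
    ring

theorem din_scan (w : List A) (y : List Bool) (i : ℕ) (hi : i ≤ w.length) :
    ∃ m, m + 1 = sz ((w.take i).map ec) ∧
      DIn m (pcf ec p w .b0 0 (false :: cd y))
        (pcf ec p w .b0 i (cd ((w.take i).map ec).reverse ++ cd y)) := by
  induction i with
  | zero => exact ⟨0, by simp, rfl⟩
  | succ i ih =>
    obtain ⟨m, hm, h1⟩ := ih (by omega)
    have hi' : i < w.length := by omega
    have e1 : w.take (i + 1) = w.take i ++ [w[i]] := by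
      rw [List.take_succ_eq_append_getElem hi']
    have h2 := din_letter (ec := ec) (p := p) w i hi' ((w.take i).map ec).reverse y
    refine ⟨m + (2 * ec w[i] + 2), ?_, ?_⟩
    · rw [e1, List.map_append, List.map_singleton, sz_snoc]
      omega
    · rw [e1, List.map_append, List.map_singleton, List.reverse_append, List.reverse_singleton,
        List.singleton_append]
      exact h1.trans h2

theorem din_load (w : List A) (y : List Bool) :
    ∃ m ≤ sz (w.map ec) + 1, DIn m (pcf ec p w .b0 0 (false :: cd y))
      (dcfg ec p w (some (entry p)) (st (cd ((w.map ec).reverse, y)) [] [] [])) := by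
  obtain ⟨m, hm, h1⟩ := din_scan (ec := ec) (p := p) w y w.length le_rfl
  rw [List.take_length] at hm h1
  have h : DIn 2 (pcf ec p w .b0 w.length (cd (w.map ec).reverse ++ cd y))
      (dcfg ec p w (some (entry p)) (st (true :: (cd (w.map ec).reverse ++ cd y)) [] [] [])) :=
    ⟨_, step_b0_end w _, _, step_c w _, rfl⟩
  exact ⟨m + 2, by omega, h1.trans h⟩

include hp in
theorem din_all (w : List A) (y : List Bool) :
    ∃ m ≤ sz (w.map ec) + 1 + 2 * P.eval (sz ((w.map ec).reverse, y)),
      DIn m (pcf ec p w .b0 0 (false :: cd y))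
        (dcfg ec p w none (st (cd (f ((w.map ec).reverse, y))) [] [] [])) := by
  obtain ⟨n, hn, hrun⟩ := hp ((w.map ec).reverse, y)
  obtain ⟨m, hm, hD⟩ := drun w hrun id none (fun l => rfl)
  obtain ⟨m', hm', hD'⟩ := din_load (ec := ec) (p := p) w y
  exact ⟨m' + m, by omega, hD'.trans hD⟩

theorem creach_guess (w : List A) (y : List Bool) :
    ∃ s ≤ 1 + 4 * y.length, CReach s (start ec p w) (pcf ec p w .a0 0 (cd y)) := by
  induction y with
  | nil => exact ⟨1, by simp, (din_start w).creach⟩
  | cons b y ih =>
    obtain ⟨s, hs, h⟩ := ih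
    cases b with
    | true =>
      have h1 : CReach 4 (pcf ec p w .a0 0 (cd y)) (pcf ec p w .a0 0 (cd (true :: y))) :=
        ⟨_, (step_a0 w _ _).2 (Or.inl rfl), (din_true w y).creach⟩
      exact ⟨s + 4, by simp only [List.length_cons]; omega, h.trans h1⟩
    | false =>
      have h1 : CReach 2 (pcf ec p w .a0 0 (cd y)) (pcf ec p w .a0 0 (cd (false :: y))) :=
        ⟨_, (step_a0 w _ _).2 (Or.inr (Or.inl rfl)), (din_false w y).creach⟩
      exact ⟨s + 2, by simp only [List.length_cons]; omega, h.trans h1⟩

include hp in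
/-- Completeness. -/
theorem accepts_of_true (w : List A) (y : List Bool) (hy : f ((w.map ec).reverse, y) = true) :
    ∃ s ≤ 4 * y.length + sz (w.map ec) + 5 + 2 * P.eval (sz ((w.map ec).reverse, y)),
      AcceptsIn (mach ec p) w s := by
  obtain ⟨s, hs, h1⟩ := creach_guess (p := p) w y
  obtain ⟨m, hm, h2⟩ := din_all (ec := ec) hp w y
  have h3 : CReach 1 (pcf ec p w .a0 0 (cd y)) (pcf ec p w .b0 0 (false :: cd y)) :=
    ⟨_, (step_a0 w _ _).2 (Or.inr (Or.inr rfl)), rfl⟩
  have h4 : CReach 1 (dcfg ec p w none (st (cd (f ((w.map ec).reverse, y))) [] [] []))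
      (mk ec p w (.inl .acc) w.length (st (cd (f ((w.map ec).reverse, y))) [] [] [])
        (fun k => (((st (cd (f ((w.map ec).reverse, y))) [] [] []) k).length : ℤ) - 1)) :=
    ⟨_, (step_exit w _ _).2 ⟨by rw [hy]; rfl, rfl⟩, rfl⟩
  refine ⟨s + 1 + m + 1, by omega, ?_⟩
  rw [acceptsIn_mach]
  exact ⟨_, ((h1.trans h3).trans h2.creach).trans h4, rfl⟩

include hp in
theorem sound_aux (w : List A) (t : ℕ) : ∀ (y : List Bool) (e : Cf ec p),
    CReach t (pcf ec p w .a0 0 (cd y)) e → e.st = .inl .acc → ∃ y', f ((w.map ec).reverse, y') = true := by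
  induction t using Nat.strong_induction_on with
  | _ t ih =>
    intro y e he hacc
    cases t with
    | zero =>
      have : e = pcf ec p w .a0 0 (cd y) := he
      subst this
      exact absurd hacc (by simp [pcf, mk])
    | succ t =>
      obtain ⟨d, hd, h⟩ := he
      rw [step_a0] at hd
      rcases hd with rfl | rfl | rfl
      · rcases (din_true w y).cases h with ⟨g, hg⟩ | ⟨u, hu, h'⟩
        · exact absurd hg (step_acc _ _ hacc)
        · exact ih u (by omega) _ e h' hacc
      · rcases (din_false w y).cases h with ⟨g, hg⟩ | ⟨u, hu, h'⟩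
        · exact absurd hg (step_acc _ _ hacc)
        · exact ih u (by omega) _ e h' hacc
      · obtain ⟨m, hm, hD⟩ := din_all (ec := ec) hp w y
        rcases hD.cases h with ⟨g, hg⟩ | ⟨u, hu, h'⟩
        · exact absurd hg (step_acc _ _ hacc)
        · cases u with
          | zero =>
            have : e = dcfg ec p w none (st (cd (f ((w.map ec).reverse, y))) [] [] []) := h'
            subst this
            exact absurd hacc (by simp [dcfg, mk])
          | succ u =>
            obtain ⟨d, hd, -⟩ := h'
            rw [step_exit] at hd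
            refine ⟨y, ?_⟩
            have h5 := hd.1
            rw [st_v] at h5
            cases hf : f ((w.map ec).reverse, y) with
            | true => rfl
            | false =>
              rw [hf] at h5
              exact absurd h5 (by simp [cd, Enc.enc])

include hp in
/-- Soundness. -/
theorem true_of_accepts (w : List A) (s : ℕ) (h : AcceptsIn (mach ec p) w s) :
    ∃ y, f ((w.map ec).reverse, y) = true := by
  rw [acceptsIn_mach] at h
  obtain ⟨e, he, hacc⟩ := h
  rcases (din_start w).cases he with ⟨g, hg⟩ | ⟨u, -, h'⟩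
  · exact absurd hg (step_acc _ _ hacc)
  · exact sound_aux hp w u _ e h' hacc

end Main

end sclGuessW_UM

/-- Guess and check machines which read the input word. -/
theorem exists_guess_word {f : List ℕ × List Bool → Bool} (hf : PT f) :
    ∃ T : Polynomial ℕ, ∀ (A : Type) [Finite A] (e : A → ℕ), ∃ M : Machine A,
      (∀ w : List A, Accepts M w ↔ ∃ y, f (w.map e, y) = true) ∧
      ∀ (w : List A) (y : List Bool), f (w.map e, y) = true →
        ∃ s ≤ T.eval (sz (w.map e) + y.length), AcceptsIn M w s := by
  have hg : PT fun x : List ℕ × List Bool => f (x.1.reverse, x.2) :=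
    hf.comp (PT.pair (PT.reverse PT.fst) PT.snd)
  obtain ⟨p, P, hp⟩ := hg
  have hp' : ∀ x : List ℕ × List Bool, RunLe p (st (cd x) [] [] [])
      (st (cd (f (x.1.reverse, x.2))) [] [] []) (P.eval (sz x)) := fun x => by simpa using hp x []
  refine ⟨4 * Polynomial.X + 5 + 2 * P.comp (4 * Polynomial.X + 2), fun A _ e =>
    ⟨sclGuessW_UM.mach e p, ?_, ?_⟩⟩
  · intro w
    constructor
    · rintro ⟨s, hs⟩
      obtain ⟨y, hy⟩ := sclGuessW_UM.true_of_accepts hp' w s hs
      exact ⟨y, by simpa using hy⟩
    · rintro ⟨y, hy⟩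
      obtain ⟨s, -, hs⟩ := sclGuessW_UM.accepts_of_true hp' w y (by simpa using hy)
      exact ⟨s, hs⟩
  · intro w y hy
    obtain ⟨s, hs, h⟩ := sclGuessW_UM.accepts_of_true hp' w y (by simpa using hy)
    refine ⟨s, hs.trans ?_, h⟩
    have h1 : sz ((w.map e).reverse, y) ≤ 4 * (sz (w.map e) + y.length) + 2 := by
      have h2 : sz y ≤ 1 + y.length * (1 + 3) := sz_list_le y 3 fun b _ => sz_bool_le b
      simp only [sz_pair, sz_reverse]
      omega
    have h2 := eval_mono P h1
    simp only [Polynomial.eval_add, Polynomial.eval_mul, Polynomial.eval_X,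
      Polynomial.eval_ofNat, Polynomial.eval_comp]
    omega

end Pool.Agent.H83.SCL
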