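import Pool.Agent.H83.SCL.Defs
import Pool.Agent.H83.SCL.GuessW
import Pool.Agent.H83.SCL.Rej

/-! Scales: complement in exponential scales. -/

namespace Pool.Agent.H83.SCL

open Pool.Agent.Lead.NTM Pool.Agent.H71.NT Pool.Agent.H79.Cx Encodable Denumerable
open Pool.Agent.H83.NT (Pl words mem_words accv AL AL_iff AccL accv_iff Coding exists_coding P3
  IsPi3 IndexSet exists_machine_of_desc mem_NTIMEPol_iff exists_time_bound closed_iff)
open Pool.Agent.H27.LD (aa ss uu mk3 inp EV exq Slowly)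

/-- The verification function: the certificate is `[v, P] :: h :: _`. -/
def sclClosedExp_ver (D : Pool.Agent.H71.NT.Desc) (rj : (List ℕ × ℕ) × ℕ → Bool)
    (p : Polynomial ℕ) (i : ℕ) (u : List ℕ) (c : List (List ℕ)) : Bool :=
  D.valid (Nat.pair (Nat.pair i u.length) (Desc.at2 c 0 0)) (c.getD 1 []) &&
    (D.acc (c.getD 1 []) && rj ((u, p.eval (Desc.at2 c 0 0)), Desc.at2 c 0 1))

theorem sclClosedExp_pt (D : Pool.Agent.H71.NT.Desc) {rj : (List ℕ × ℕ) × ℕ → Bool} (hr : PT rj)
    (p : Polynomial ℕ) (i : ℕ) : PT fun z : List ℕ × List Bool =>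
      sclClosedExp_ver D rj p i z.1 (decLL (parse z.2)) := by
  have h1 : PT fun z : List ℕ × List Bool =>
      rj ((z.1, p.eval (Desc.at2 (decLL (parse z.2)) 0 0)), Desc.at2 (decLL (parse z.2)) 0 1) := by
    refine hr.comp ?_
    fun_prop
  unfold sclClosedExp_ver
  fun_prop

/-- Polynomials are below the exponential function, up to a constant. -/
theorem sclClosedExp_poly (R : Polynomial ℕ) : ∃ C, ∀ v, R.eval v ≤ 2 ^ v + C := by
  obtain ⟨k, C, hC⟩ := eval_lt_of_pow_lt R
  have h := (isLittleO_pow_const_const_pow_of_one_lt (R := ℝ) k (r := 2) (by norm_num)).bound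
    (c := 1) one_pos
  obtain ⟨N, hN⟩ := Filter.eventually_atTop.1 h
  refine ⟨C + R.eval N, fun v => ?_⟩
  rcases le_total N v with hv | hv
  · have h1 := hN v hv
    rw [one_mul, Real.norm_of_nonneg (by positivity), Real.norm_of_nonneg (by positivity)] at h1
    have h2 : v ^ k ≤ 2 ^ v := by exact_mod_cast h1
    have h3 := hC v (2 ^ v + C + 1) (by omega) (by omega)
    omega
  · have h1 := eval_mono R hv
    exact h1.trans ((Nat.le_add_left _ _).trans (Nat.le_add_left _ _))

theorem closed_of_exp {G : ℕ → ℕ → ℕ} (hG : Scale G) (h2 : ∀ i n, 2 ^ G i n ≤ G (i + 1) n)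
    (A : Type) [Finite A] : ∀ L ∈ UPol A G, Lᶜ ∈ UPol A G := by
  rintro L ⟨i, M, p, hM, hp⟩
  obtain ⟨MG, pG, hMG, hpG⟩ := hG.honest
  obtain ⟨m, ⟨E⟩⟩ := exists_coding A
  obtain ⟨D', hD'⟩ := Pool.Agent.H83.NT.exists_accL M E.e E.inj
  obtain ⟨rj, hrj, hr1, q, hr2⟩ := exists_rej D'
  obtain ⟨T, hT⟩ := exists_guess_word (sclClosedExp_pt (descM MG ()) hrj p i)
  obtain ⟨M', hM', hM'2⟩ := hT A E.e
  -- the certificates are correct
  have hsound : ∀ (w : List A) (y : List Bool),
      sclClosedExp_ver (descM MG ()) rj p i (w.map E.e) (decLL (parse y)) = true → w ∉ L := by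
    intro w y hy hw
    unfold sclClosedExp_ver at hy
    rw [Bool.and_eq_true, Bool.and_eq_true] at hy
    obtain ⟨ha, hb, hc⟩ := hy
    have h3 : Accepts MG (List.replicate (Nat.pair (Nat.pair i (w.map E.e).length)
        (Desc.at2 (decLL (parse y)) 0 0)) ()) :=
      ⟨_, (acceptsIn_iff_desc MG () _ _).2 ⟨_, rfl, ha, hb⟩⟩
    rw [hMG, List.length_map] at h3
    rw [h3] at hc
    obtain ⟨s, hs, hacc⟩ := hp w hw
    exact hr1 _ _ _ hc s hs ((hD' w s).1 hacc)
  -- the certificates exist
  obtain ⟨C, hC⟩ := sclClosedExp_poly (q.comp (p + (1 + Polynomial.X * Polynomial.C (2 * m + 2))))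
  set b := (descM MG ()).nr with hb
  set Q : Polynomial ℕ := (1 + Polynomial.X * Polynomial.C (2 * m + 2)) +
    (10 + 2 * Polynomial.X + Polynomial.C (2 * 2 ^ C) * Polynomial.X +
      (pG.comp (Polynomial.C i + Polynomial.X)) * Polynomial.C (2 * b + 2)) with hQ
  have hcomplete : ∀ w : List A, w ∉ L → ∃ y : List Bool,
      sclClosedExp_ver (descM MG ()) rj p i (w.map E.e) (decLL (parse y)) = true ∧
      sz (w.map E.e) + y.length ≤ Q.eval (G (i + 2) w.length) := by
    intro w hw
    set u := w.map E.e with hu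
    set n := w.length with hn
    set v := G i n with hv
    set X := G (i + 2) n with hX
    have hul : u.length = n := by rw [hu, List.length_map]
    have e1 : 2 ^ v ≤ G (i + 1) n := h2 i n
    have e2 : 2 ^ G (i + 1) n ≤ X := h2 (i + 1) n
    have e3 : v < 2 ^ v := Nat.lt_two_pow_self
    have e4 : G (i + 1) n < 2 ^ G (i + 1) n := Nat.lt_two_pow_self
    have e5 : n ≤ v := by
      have h3 : ∀ j, n + 2 ≤ G j n := by
        intro j
        induction j with
        | zero => exact hG.two n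
        | succ j ih =>
          have h4 := h2 j n
          have h5 : G j n < 2 ^ G j n := Nat.lt_two_pow_self
          omega
      have := h3 i
      omega
    have e6 : v ≤ X := by omega
    have hsu : sz u ≤ 1 + n * (2 * m + 2) := by
      have h3 := sz_hist_le (h := u) (b := m) (by
        intro ρ hρ
        rw [hu, List.mem_map] at hρ
        obtain ⟨a, -, rfl⟩ := hρ
        exact E.lt a)
      rwa [hul] at h3
    set P := 2 ^ q.eval (p.eval v + sz u) with hP
    have hPX : P ≤ 2 ^ C * X := by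
      have h3 := hC v
      simp only [Polynomial.eval_comp, Polynomial.eval_add, Polynomial.eval_mul,
        Polynomial.eval_one, Polynomial.eval_X, Polynomial.eval_C] at h3
      have h4 : q.eval (p.eval v + sz u) ≤ q.eval (p.eval v + (1 + v * (2 * m + 2))) := by
        refine eval_mono q ?_
        have h5 : n * (2 * m + 2) ≤ v * (2 * m + 2) := Nat.mul_le_mul_right _ e5
        omega
      calc P ≤ 2 ^ (2 ^ v + C) := Nat.pow_le_pow_right (by norm_num) (h4.trans h3)
        _ = 2 ^ C * 2 ^ 2 ^ v := by rw [pow_add, mul_comm]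
        _ ≤ 2 ^ C * 2 ^ G (i + 1) n := Nat.mul_le_mul_left _ (Nat.pow_le_pow_right (by norm_num) e1)
        _ ≤ 2 ^ C * X := Nat.mul_le_mul_left _ e2
    obtain ⟨s, hs, hacc⟩ := hpG i n
    obtain ⟨h, hl, hva, hac⟩ := (acceptsIn_iff_desc MG () _ _).1 hacc
    refine ⟨cd [[v, P], h], ?_, ?_⟩
    · rw [parse_cd, decLL_enc]
      unfold sclClosedExp_ver
      rw [Bool.and_eq_true, Bool.and_eq_true]
      have f1 : Desc.at2 [[v, P], h] 0 0 = v := rfl
      have f2 : Desc.at2 [[v, P], h] 0 1 = P := rfl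
      have f3 : [[v, P], h].getD 1 [] = h := rfl
      rw [f1, f2, f3, hul]
      refine ⟨hva, hac, hr2 _ _ _ ?_ le_rfl⟩
      intro s _ hs2
      exact hw ((hM w).2 ⟨s, (hD' w s).2 hs2⟩)
    · rw [length_cd]
      have g1 : sz [[v, P], h] = 1 + (1 + (2 * v + 1) + (1 + (2 * P + 1) + 1)) +
          (1 + sz h + 1) := by
        simp only [sz_cons, sz_nil, sz_nat]
      have g2 : sz h ≤ 1 + h.length * (2 * b + 2) := sz_hist_le (Desc.lt_of_valid hva)
      have g3 : h.length * (2 * b + 2) ≤ pG.eval (i + X) * (2 * b + 2) := by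
        refine Nat.mul_le_mul_right _ ?_
        rw [hl]
        exact hs.trans (eval_mono pG (by omega))
      have g4 : n * (2 * m + 2) ≤ X * (2 * m + 2) := Nat.mul_le_mul_right _ (by omega)
      rw [hQ]
      simp only [Polynomial.eval_comp, Polynomial.eval_add, Polynomial.eval_mul,
        Polynomial.eval_one, Polynomial.eval_X, Polynomial.eval_C, Polynomial.eval_ofNat]
      have g5 : 2 * 2 ^ C * X = 2 * (2 ^ C * X) := by ring
      rw [g1, g5]
      omega
  refine ⟨i + 2, M', T.comp Q, fun w => ?_, fun w hw => ?_⟩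
  · rw [hM']
    constructor
    · intro hw
      obtain ⟨y, hy, -⟩ := hcomplete w hw
      exact ⟨y, hy⟩
    · rintro ⟨y, hy⟩
      exact hsound w y hy
  · obtain ⟨y, hy, hl⟩ := hcomplete w hw
    obtain ⟨s, hs, hacc⟩ := hM'2 w y hy
    refine ⟨s, hs.trans ?_, hacc⟩
    rw [Polynomial.eval_comp]
    exact eval_mono T hl

end Pool.Agent.H83.SCL
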