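import Pool.Agent.H83.SCL.Defs

/-! Scales: a machine on the words 1^n with unique running time sigma(n) >= B(n). -/

namespace Pool.Agent.H83.SCL

open Pool.Agent.Lead.NTM Pool.Agent.H71.NT Pool.Agent.H79.Cx Encodable Denumerable
open Pool.Agent.H83.NT (Pl words mem_words accv AL AL_iff AccL accv_iff Coding exists_coding P3
  IsPi3 IndexSet exists_machine_of_desc mem_NTIMEPol_iff exists_time_bound closed_iff)
open Pool.Agent.H27.LD (aa ss uu mk3 inp EV exq Slowly)

open Nat.Partrec (Code)
open Pool.Agent.H83.NT (UC phase yOf T T_dom macc acceptsIn_macc primrec_phase CM)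
open Pool.Agent.H27.LD (cp_not cp_ball cp_of_bool cp_comp cp_exists_bool)

/-- The universal machine does not halt within `B n` steps on the code `c` and the word `u`. -/
private def sclExact_late (B : ℕ → ℕ) (c : Code) (u : List ℕ) : Prop :=
  ∀ i < B u.length, ¬ UC.Halted (phase (1 + 1) u).1 (yOf 1 c) i

private theorem sclExact_cp {B : ℕ → ℕ} (hB : Computable B) :
    ComputablePred fun q : Code × ℕ => sclExact_late B q.1 (ofNat (List ℕ) q.2) := by
  have hu : Computable fun q : Code × ℕ => ofNat (List ℕ) q.2 :=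
    (Computable.ofNat (List ℕ)).comp Computable.snd
  refine cp_ball (p := fun (q : Code × ℕ) i =>
    ¬ UC.Halted (phase (1 + 1) (ofNat (List ℕ) q.2)).1 (yOf 1 q.1) i) ?_
    (hB.comp (Computable.list_length.comp hu))
  refine cp_not ?_
  have h1 : Computable fun q : (Code × ℕ) × ℕ => (phase (1 + 1) (ofNat (List ℕ) q.1.2)).1 :=
    Computable.fst.comp (primrec_phase.to_comp.comp (Computable.const (1 + 1))
      (hu.comp Computable.fst))
  have h2 : Computable fun q : (Code × ℕ) × ℕ => yOf 1 q.1.1 :=
    (Primrec₂.natPair.comp (Primrec.const (1 + 1))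
      (Primrec.encode.comp (Primrec.fst.comp Primrec.fst))).to_comp
  have h3 := (UC.primrec_halted).to_comp.comp ((h1.pair h2).pair Computable.snd)
  exact cp_of_bool _ h3 fun q => by simp

private theorem sclExact_code {B : ℕ → ℕ} (hB : Computable B) : ∃ c : Code, ∀ u : List ℕ,
    (c.eval (encode u)).Dom ↔ sclExact_late B c u := by
  obtain ⟨g, hg, hgp⟩ := cp_exists_bool (sclExact_cp hB)
  have hF : Partrec fun q : Code × ℕ => bif g q then Part.some 0 else (Part.none : Part ℕ) :=
    Partrec.cond hg (Computable.const 0).partrec Partrec.none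
  obtain ⟨c, hc⟩ := Code.fixed_point₂ (f := fun (c : Code) (a : ℕ) =>
    bif g (c, a) then Part.some 0 else (Part.none : Part ℕ)) hF
  refine ⟨c, fun u => ?_⟩
  have h1 := hgp (c, encode u)
  simp only [ofNat_encode] at h1
  rw [hc, h1]
  show (bif g (c, encode u) then Part.some 0 else (Part.none : Part ℕ)).Dom ↔ _
  cases h2 : g (c, encode u)
  · simp
  · simp

theorem exists_exact {B : ℕ → ℕ} (hB : Computable B) : ∃ (M : Machine Unit) (σ : ℕ → ℕ),
    Computable σ ∧ (∀ n s, AcceptsIn M (List.replicate n ()) s ↔ s = σ n) ∧ ∀ n, B n ≤ σ n := by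
  obtain ⟨c, hc⟩ := sclExact_code hB
  -- the running times
  have key : ∀ n, ∃ s, s ∈ T ((1, c), List.replicate n 0) ∧ B n ≤ s := by
    intro n
    have hu : ∀ a ∈ List.replicate n 0, a < 1 := by
      intro a ha
      rw [List.eq_of_mem_replicate ha]
      exact Nat.one_pos
    have hd := (T_dom (m := 1) (c := c) hu).trans (hc _)
    have hl : sclExact_late B c (List.replicate n 0) := by
      intro i hi hh
      have h1 : (T ((1, c), List.replicate n 0)).Dom := by
        show (UC.time _).Dom
        exact CM.time_dom.2 ⟨i, hh⟩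
      exact hd.1 h1 i hi hh
    obtain ⟨s, hs⟩ := Part.dom_iff_mem.1 (hd.2 hl)
    refine ⟨s, hs, ?_⟩
    unfold T at hs
    obtain ⟨i, hi, rfl⟩ := (Part.mem_map_iff _).1 hs
    have h2 := (CM.mem_time.1 hi).1
    have h3 : B n ≤ i := by
      by_contra hlt
      refine hl i ?_ h2
      rw [List.length_replicate]
      omega
    omega
  choose σ hσ hBσ using key
  have hM : ∀ n s, AcceptsIn (macc (fun _ : Unit => 0) 1 c) (List.replicate n ()) s ↔ s = σ n := by
    intro n s
    rw [acceptsIn_macc (m := 1) fun _ => Nat.one_pos, List.map_replicate]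
    constructor
    · intro h
      exact Part.mem_unique h (hσ n)
    · rintro rfl
      exact hσ n
  exact ⟨_, σ, computable_time hM, hM, hBσ⟩

end Pool.Agent.H83.SCL
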