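import Pool.Agent.H83.SCL.Defs

/-! Scales: if U is not closed, then for a slow h no t in the window is closed. -/

namespace Pool.Agent.H83.SCL

open Pool.Agent.Lead.NTM Pool.Agent.H71.NT Pool.Agent.H79.Cx Encodable Denumerable
open Pool.Agent.H83.NT (Pl words mem_words accv AL AL_iff AccL accv_iff Coding exists_coding P3
  IsPi3 IndexSet exists_machine_of_desc mem_NTIMEPol_iff exists_time_bound closed_iff)
open Pool.Agent.H27.LD (aa ss uu mk3 inp EV exq Slowly)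

/-- The word found for the machine `i` and the degree and level `k`: `z = (u, s)`. -/
private def sclSlow_Fnd (G : ℕ → ℕ → ℕ) (m i0 d0 j0 i k : ℕ) (u : List ℕ) (s : ℕ) : Prop :=
  (∀ a ∈ u, a < m) ∧ ((accv (i0, d0) u (G j0 u.length) = true ∧ AL i u s = true) ∨
    (accv (i0, d0) u (G j0 u.length) = false ∧ accv (i, k) u (G k u.length) = false))

private theorem sclSlow_cp_Fnd {G : ℕ → ℕ → ℕ} (hG : Computable₂ G) (m i0 d0 j0 : ℕ) :
    ComputablePred fun q : (ℕ × ℕ) × ℕ => sclSlow_Fnd G m i0 d0 j0 q.1.1 q.1.2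
      (ofNat (List ℕ × ℕ) q.2).1 (ofNat (List ℕ × ℕ) q.2).2 := by
  have hz : Computable fun q : (ℕ × ℕ) × ℕ => ofNat (List ℕ × ℕ) q.2 :=
    (Computable.ofNat (List ℕ × ℕ)).comp Computable.snd
  have hu : Computable fun q : (ℕ × ℕ) × ℕ => (ofNat (List ℕ × ℕ) q.2).1 :=
    Computable.fst.comp hz
  have hs : Computable fun q : (ℕ × ℕ) × ℕ => (ofNat (List ℕ × ℕ) q.2).2 :=
    Computable.snd.comp hz
  have hi : Computable fun q : (ℕ × ℕ) × ℕ => q.1.1 := Computable.fst.comp Computable.fst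
  have hk : Computable fun q : (ℕ × ℕ) × ℕ => q.1.2 := Computable.snd.comp Computable.fst
  have hlen : Computable fun q : (ℕ × ℕ) × ℕ => (ofNat (List ℕ × ℕ) q.2).1.length :=
    Primrec.list_length.to_comp.comp hu
  have hl0 : Computable fun q : (ℕ × ℕ) × ℕ => G j0 (ofNat (List ℕ × ℕ) q.2).1.length :=
    hG.comp (Computable.const j0) hlen
  have hlk : Computable fun q : (ℕ × ℕ) × ℕ => G q.1.2 (ofNat (List ℕ × ℕ) q.2).1.length :=
    hG.comp hk hlen
  have h1 := (Pool.Agent.H83.NT.computable_okw m).comp hu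
  have h2 := Pool.Agent.H83.NT.computable_accv.comp ((Computable.const (i0, d0)).pair
    (hu.pair hl0))
  have h3 := Pool.Agent.H83.NT.computable_AL.comp ((hi.pair hu).pair hs)
  have h4 := Pool.Agent.H83.NT.computable_accv.comp ((hi.pair hk).pair (hu.pair hlk))
  have h5 := Pool.Agent.H27.LD.cp_and (Pool.Agent.H27.LD.cp_bool h1)
    (Pool.Agent.H27.LD.cp_or (Pool.Agent.H27.LD.cp_and (Pool.Agent.H27.LD.cp_bool h2)
      (Pool.Agent.H27.LD.cp_bool h3))
    (Pool.Agent.H27.LD.cp_and (Pool.Agent.H27.LD.cp_not (Pool.Agent.H27.LD.cp_bool h2))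
      (Pool.Agent.H27.LD.cp_not (Pool.Agent.H27.LD.cp_bool h4))))
  refine Pool.Agent.H27.LD.cp_congr h5 fun q => ?_
  unfold sclSlow_Fnd
  rw [Pool.Agent.H83.NT.okw_iff]
  simp only [Bool.not_eq_true]

private theorem sclSlow_exists_Fnd {G : ℕ → ℕ → ℕ} {A : Type} [Finite A] {m : ℕ} (E : Coding A m)
    {L : Set (List A)} {i0 d0 j0 : ℕ}
    (hL : ∀ w : List A, w ∈ L ↔ accv (i0, d0) (w.map E.e) (G j0 w.length) = true)
    (hL' : ∀ k, Lᶜ ∉ NTIMEPol A (G k)) (i k : ℕ) : ∃ u s, sclSlow_Fnd G m i0 d0 j0 i k u s := by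
  by_contra hne
  push Not at hne
  apply hL' k
  have hlen : ∀ w : List A, (w.map E.e).length = w.length := fun w => List.length_map _
  have hlt : ∀ w : List A, ∀ a ∈ w.map E.e, a < m := by
    intro w a ha
    rw [List.mem_map] at ha
    obtain ⟨b, -, rfl⟩ := ha
    exact E.lt b
  have h1 : ∀ (w : List A) (s : ℕ), AL i (w.map E.e) s = true → w ∉ L := by
    intro w s hs hw
    refine hne (w.map E.e) s ⟨hlt w, Or.inl ⟨?_, hs⟩⟩
    rw [hlen]
    exact (hL w).1 hw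
  have h2 : ∀ w : List A, w ∉ L → accv (i, k) (w.map E.e) (G k w.length) = true := by
    intro w hw
    by_contra h3
    refine hne (w.map E.e) 0 ⟨hlt w, Or.inr ⟨?_, ?_⟩⟩
    · rw [hlen, ← Bool.not_eq_true]
      exact fun h4 => hw ((hL w).2 h4)
    · rw [hlen]
      simpa using h3
  refine (mem_NTIMEPol_iff E).2 ⟨i, k, fun w => ⟨h2 w, fun h3 => ?_⟩, fun w s hs =>
    h2 w (h1 w s hs)⟩
  rw [accv_iff] at h3
  obtain ⟨s, -, hs⟩ := h3
  exact h1 w s (AL_iff.2 hs)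

private theorem sclSlow_level {G : ℕ → ℕ → ℕ} (hG : Scale G) (n : ℕ) :
    Monotone fun i => G i n := by
  refine monotone_nat_of_le_succ fun i => ?_
  have h1 := hG.sq i n
  have h2 : G i n ≤ G i n ^ 2 := Nat.le_self_pow (by omega) _
  exact h2.trans h1

theorem slow {G : ℕ → ℕ → ℕ} (hG : Scale G) {A : Type} [Finite A]
    (hA : ¬ ∀ L ∈ UPol A G, Lᶜ ∈ UPol A G) :
    ∃ h, Slowly h ∧ ∀ t, Near G h t → NTIMEPol A t ≠ coNTIMEPol A t := by
  push Not at hA
  obtain ⟨L, ⟨j0, hL⟩, hL0⟩ := hA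
  have hL' : ∀ k, Lᶜ ∉ NTIMEPol A (G k) := fun k hk => hL0 ⟨k, hk⟩
  obtain ⟨m, ⟨E⟩⟩ := exists_coding A
  obtain ⟨i0, d0, h1, h2⟩ := (mem_NTIMEPol_iff E).1 hL
  have hex : ∀ q : ℕ × ℕ, ∃ z, sclSlow_Fnd G m i0 d0 j0 q.1 q.2 (ofNat (List ℕ × ℕ) z).1
      (ofNat (List ℕ × ℕ) z).2 := by
    intro q
    obtain ⟨u, s, hus⟩ := sclSlow_exists_Fnd E h1 hL' q.1 q.2
    refine ⟨encode (u, s), ?_⟩
    rw [ofNat_encode]
    exact hus
  obtain ⟨f, hf, hfs⟩ := Pool.Agent.H27.LD.cp_search (p := fun (q : ℕ × ℕ) z =>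
    sclSlow_Fnd G m i0 d0 j0 q.1 q.2 (ofNat (List ℕ × ℕ) z).1
    (ofNat (List ℕ × ℕ) z).2) (sclSlow_cp_Fnd hG.comp m i0 d0 j0) hex
  have hW : Computable fun q : ℕ × ℕ =>
      (ofNat (List ℕ × ℕ) (f (q.1, q.2 + 1))).1.length := by
    have h3 : Computable fun q : ℕ × ℕ => (q.1, q.2 + 1) :=
      (Primrec.fst.pair (Primrec.succ.comp Primrec.snd)).to_comp
    exact Primrec.list_length.to_comp.comp (Computable.fst.comp
      ((Computable.ofNat (List ℕ × ℕ)).comp (hf.comp h3)))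
  obtain ⟨N, hNc, hNm, hNid, hNW⟩ := Pool.Agent.H27.LD.exists_bound hW
  obtain ⟨h, hc, hm, hu, hh1, hhN⟩ := Pool.Agent.H27.LD.exists_slow hNc hNm hNid
  refine ⟨h, ⟨hc, hm, hu, hh1⟩, fun t ht hcl => ?_⟩
  obtain ⟨ht0, hti⟩ := ht
  have hLt : L ∈ NTIMEPol A t := by
    obtain ⟨n0, hn0⟩ := Filter.eventually_atTop.1 (hti j0)
    refine mem_NTIMEPol_of_le hL (Polynomial.X + Polynomial.C (G j0 n0)) fun w _ => ?_
    rw [Polynomial.eval_add, Polynomial.eval_X, Polynomial.eval_C]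
    rcases le_total n0 w.length with h3 | h3
    · exact (hn0 _ h3).trans (Nat.le_add_right _ _)
    · exact (hG.mono j0 h3).trans (Nat.le_add_left _ _)
  obtain ⟨i, d, h3, h4⟩ := (mem_NTIMEPol_iff E).1 (closed_iff.1 hcl L hLt)
  set j := max i d with hj
  have h5 := hfs (i, j + 1)
  have h6 := hNW i j (le_max_left _ _)
  simp only at h5 h6
  generalize (ofNat (List ℕ × ℕ) (f (i, j + 1))).1 = u at h5 h6
  generalize (ofNat (List ℕ × ℕ) (f (i, j + 1))).2 = s at h5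
  obtain ⟨h7, h8⟩ := h5
  obtain ⟨w, hw, rfl⟩ := E.exists_word (n := u.length) (mem_words.2 ⟨rfl, h7⟩)
  rw [List.length_map] at h6 h8
  rcases h8 with ⟨h8, h9⟩ | ⟨h8, h9⟩
  · exact (h3 w).2 (h4 w s h9) ((h1 w).2 h8)
  · have h10 : w ∉ L := by
      intro h11
      rw [(h1 w).1 h11] at h8
      exact absurd h8 (by simp)
    have h11 := (h3 w).1 h10
    rw [accv_iff] at h11
    obtain ⟨s', h12, h13⟩ := h11
    have h14 : accv (i, j + 1) (w.map E.e) (G (j + 1) w.length) = true := by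
      rw [accv_iff]
      refine ⟨s', h12.trans ?_, h13⟩
      have h15 := hhN w.length j h6
      have h16 : t w.length ≤ G (j + 1) w.length :=
        (ht0 w.length).2.trans (sclSlow_level hG w.length h15)
      have h17 : d ≤ j + 1 := (le_max_right i d).trans (Nat.le_succ _)
      unfold Pl
      exact (Nat.pow_le_pow_left (Nat.add_le_add h16 h17) _).trans
        (Nat.pow_le_pow_right (by omega) h17)
    rw [h14] at h9
    exact absurd h9 (by simp)

end Pool.Agent.H83.SCL
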