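import Pool.Agent.H83.SCL.Defs

/-! Scales: scale_of_pt, the scales (n+2)^(2^i) and 2^((n+2)^(i+1)). -/

namespace Pool.Agent.H83.SCL

open Pool.Agent.Lead.NTM Pool.Agent.H71.NT Pool.Agent.H79.Cx Encodable Denumerable
open Pool.Agent.H83.NT (Pl words mem_words accv AL AL_iff AccL accv_iff Coding exists_coding P3
  IsPi3 IndexSet exists_machine_of_desc mem_NTIMEPol_iff exists_time_bound closed_iff)
open Pool.Agent.H27.LD (aa ss uu mk3 inp EV exq Slowly)

/-- The verification: the certificate is the list `[[i, n, m]]`. -/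
private def sclPt_v (g : (ℕ × ℕ) × ℕ → Bool) (z : ℕ) (c : List (List ℕ)) : Bool :=
  decide (Nat.pair (Nat.pair (Desc.at2 c 0 0) (Desc.at2 c 0 1)) (Desc.at2 c 0 2) = z) &&
    g ((Desc.at2 c 0 0, Desc.at2 c 0 1), Desc.at2 c 0 2)

private def sclPt_f (g : (ℕ × ℕ) × ℕ → Bool) (x : ℕ × List Bool) : Bool :=
  sclPt_v g x.1 (decLL (parse x.2))

private theorem sclPt_pt {g : (ℕ × ℕ) × ℕ → Bool} (hg : PT g) : PT (sclPt_f g) := by
  have h1 : PT fun x : ℕ × List Bool => decLL (parse x.2) := by fun_prop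
  have h2 : PT fun x : ℕ × List Bool => Desc.at2 (decLL (parse x.2)) 0 0 := by fun_prop
  have h3 : PT fun x : ℕ × List Bool => Desc.at2 (decLL (parse x.2)) 0 1 := by fun_prop
  have h4 : PT fun x : ℕ × List Bool => Desc.at2 (decLL (parse x.2)) 0 2 := by fun_prop
  have h5 : PT fun x : ℕ × List Bool => g ((Desc.at2 (decLL (parse x.2)) 0 0,
      Desc.at2 (decLL (parse x.2)) 0 1), Desc.at2 (decLL (parse x.2)) 0 2) :=
    PT.comp hg (PT.pair (PT.pair h2 h3) h4)
  show PT fun x => sclPt_f g x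
  unfold sclPt_f sclPt_v
  refine PT.and' ?_ h5
  fun_prop

private theorem sclPt_iff {g : (ℕ × ℕ) × ℕ → Bool} (i n m : ℕ) :
    (∃ y, sclPt_f g (Nat.pair (Nat.pair i n) m, y) = true) ↔ g ((i, n), m) = true := by
  constructor
  · rintro ⟨y, hy⟩
    unfold sclPt_f sclPt_v at hy
    rw [Bool.and_eq_true, decide_eq_true_eq] at hy
    obtain ⟨h1, h2⟩ := hy
    obtain ⟨h3, h4⟩ := Nat.pair_eq_pair.1 h1
    obtain ⟨h5, h6⟩ := Nat.pair_eq_pair.1 h3
    rwa [h4, h5, h6] at h2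
  · intro h
    refine ⟨cd [[i, n, m]], ?_⟩
    unfold sclPt_f
    have h0 : decLL (parse (cd [[i, n, m]])) = [[i, n, m]] := by
      rw [parse_cd, decLL_enc]
    show sclPt_v g _ (decLL (parse (cd [[i, n, m]]))) = true
    rw [h0]
    unfold sclPt_v
    rw [Bool.and_eq_true, decide_eq_true_eq]
    exact ⟨rfl, h⟩

private theorem sclPt_cert {g : (ℕ × ℕ) × ℕ → Bool} {i n m : ℕ} (h : g ((i, n), m) = true) :
    ∃ y, sclPt_f g (Nat.pair (Nat.pair i n) m, y) = true ∧ y.length ≤ 9 + 2 * i + 2 * n + 2 * m := by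
  refine ⟨cd [[i, n, m]], ?_, ?_⟩
  · unfold sclPt_f
    have h0 : decLL (parse (cd [[i, n, m]])) = [[i, n, m]] := by
      rw [parse_cd, decLL_enc]
    show sclPt_v g _ (decLL (parse (cd [[i, n, m]]))) = true
    rw [h0]
    unfold sclPt_v
    rw [Bool.and_eq_true, decide_eq_true_eq]
    exact ⟨rfl, h⟩
  · rw [length_cd]
    simp only [sz_cons, sz_nil, sz_nat]
    omega

private theorem sclPt_le {G : ℕ → ℕ → ℕ} (h2 : ∀ n, n + 2 ≤ G 0 n)
    (hs : ∀ i n, G i n ^ 2 ≤ G (i + 1) n) (i n : ℕ) : n ≤ G i n := by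
  induction i with
  | zero => exact (Nat.le_add_right n 2).trans (h2 n)
  | succ i ih => exact ih.trans ((Nat.le_self_pow two_ne_zero _).trans (hs i n))

theorem scale_of_pt {G : ℕ → ℕ → ℕ} (hc : Computable₂ G) (hm : ∀ i, Monotone (G i))
    (h2 : ∀ n, n + 2 ≤ G 0 n) (hs : ∀ i n, G i n ^ 2 ≤ G (i + 1) n)
    (hp : PT fun x : (ℕ × ℕ) × ℕ => decide (x.2 = G x.1.1 x.1.2)) : Scale G := by
  refine ⟨hc, hm, h2, hs, ?_⟩
  obtain ⟨T, hT⟩ := exists_guess_machine (sclPt_pt hp)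
  obtain ⟨M, hM1, hM2⟩ := hT Unit
  refine ⟨M, T.comp (((Polynomial.X + 1) ^ 2 + 1) ^ 2 + (9 + 6 * Polynomial.X)), fun i n m => ?_, fun i n => ?_⟩
  · rw [hM1, List.length_replicate, sclPt_iff, decide_eq_true_eq]
  · obtain ⟨y, hy, hyl⟩ := sclPt_cert (g := fun x : (ℕ × ℕ) × ℕ => decide (x.2 = G x.1.1 x.1.2))
      (i := i) (n := n) (m := G i n) (decide_eq_true rfl)
    obtain ⟨s, hs1, hs2⟩ := hM2 (List.replicate (Nat.pair (Nat.pair i n) (G i n)) ()) y
      (by rw [List.length_replicate]; exact hy)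
    refine ⟨s, hs1.trans ?_, hs2⟩
    rw [List.length_replicate, Polynomial.eval_comp]
    refine eval_mono T ?_
    simp only [Polynomial.eval_add, Polynomial.eval_mul, Polynomial.eval_pow, Polynomial.eval_X,
      Polynomial.eval_ofNat, Polynomial.eval_one]
    obtain ⟨X, hX⟩ : ∃ X, X = i + G i n := ⟨_, rfl⟩
    rw [← hX]
    have hn : n ≤ G i n := sclPt_le h2 hs i n
    have e1 : Nat.pair i n ≤ (X + 1) ^ 2 := by
      refine (Nat.pair_lt_max_add_one_sq i n).le.trans (Nat.pow_le_pow_left ?_ 2)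
      have : max i n ≤ X := max_le (by omega) (by omega)
      omega
    have e2 : Nat.pair (Nat.pair i n) (G i n) ≤ ((X + 1) ^ 2 + 1) ^ 2 := by
      refine (Nat.pair_lt_max_add_one_sq _ _).le.trans (Nat.pow_le_pow_left ?_ 2)
      have h4 : X ≤ (X + 1) ^ 2 := (Nat.le_succ X).trans (Nat.le_self_pow two_ne_zero _)
      have : max (Nat.pair i n) (G i n) ≤ (X + 1) ^ 2 := max_le e1 (by omega)
      omega
    omega

/-! ### towers of height two -/

private theorem sclPt_pw {a m k : ℕ} (ha : 1 ≤ a) : pw a (m + 1) k = m ↔ a ^ k = m := by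
  obtain ⟨h1, h2⟩ := pw_inv a (m + 1) k ha
  constructor
  · intro h
    rcases h2 with h2 | h2
    · rw [← h2]; exact h
    · omega
  · intro h
    rcases h2 with h2 | h2
    · rw [h2]; exact h
    · omega

private theorem sclPt_pw2 {a b m k : ℕ} (ha : 2 ≤ a) (hb : 1 ≤ b) :
    pw a (m + 1) (pw b (m + 1) k) = m ↔ m = a ^ b ^ k := by
  rw [sclPt_pw (by omega)]
  obtain ⟨h1, h2⟩ := pw_inv b (m + 1) k hb
  rcases h2 with h2 | h2
  · rw [h2, eq_comm]
  · have h3 : m < a ^ pw b (m + 1) k := by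
      calc m < pw b (m + 1) k := h2
        _ < 2 ^ pw b (m + 1) k := Nat.lt_two_pow_self
        _ ≤ a ^ pw b (m + 1) k := Nat.pow_le_pow_left ha _
    have h4 : a ^ pw b (m + 1) k ≤ a ^ b ^ k := Nat.pow_le_pow_right (by omega) h1
    constructor
    · intro h; omega
    · intro h; omega

theorem scale_np : Scale fun i n => (n + 2) ^ 2 ^ i := by
  have hpow : Primrec₂ fun a b : ℕ => a ^ b := Primrec₂.unpaired'.1 Nat.Primrec.pow
  refine scale_of_pt ?_ ?_ ?_ ?_ ?_
  · have h : Primrec fun p : ℕ × ℕ => (p.2 + 2) ^ 2 ^ p.1 :=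
      hpow.comp (Primrec.nat_add.comp Primrec.snd (Primrec.const 2))
        (hpow.comp (Primrec.const 2) Primrec.fst)
    exact h.to_comp
  · intro i a b hab
    exact Nat.pow_le_pow_left (by omega) _
  · intro n
    simp
  · intro i n
    rw [← pow_mul, ← pow_succ]
  · have h : PT fun x : (ℕ × ℕ) × ℕ => decide (pw (x.1.2 + 2) (x.2 + 1) (pw 2 (x.2 + 1) x.1.1) = x.2) := by
      fun_prop
    refine PT.congr h fun x => ?_
    rw [decide_eq_decide]
    exact sclPt_pw2 (by omega) (by norm_num)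

theorem scale_exp : Scale fun i n => 2 ^ (n + 2) ^ (i + 1) := by
  have hpow : Primrec₂ fun a b : ℕ => a ^ b := Primrec₂.unpaired'.1 Nat.Primrec.pow
  refine scale_of_pt ?_ ?_ ?_ ?_ ?_
  · have h : Primrec fun p : ℕ × ℕ => 2 ^ (p.2 + 2) ^ (p.1 + 1) :=
      hpow.comp (Primrec.const 2) (hpow.comp (Primrec.nat_add.comp Primrec.snd (Primrec.const 2))
        (Primrec.nat_add.comp Primrec.fst (Primrec.const 1)))
    exact h.to_comp
  · intro i a b hab
    exact Nat.pow_le_pow_right (by norm_num) (Nat.pow_le_pow_left (by omega) _)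
  · intro n
    rw [zero_add, pow_one]
    exact Nat.lt_two_pow_self.le
  · intro i n
    rw [← pow_mul]
    refine Nat.pow_le_pow_right (by norm_num) ?_
    rw [pow_succ (n + 2) (i + 1)]
    exact Nat.mul_le_mul_left _ (by omega)
  · have h : PT fun x : (ℕ × ℕ) × ℕ => decide (pw 2 (x.2 + 1) (pw (x.1.2 + 2) (x.2 + 1) (x.1.1 + 1)) = x.2) := by
      fun_prop
    refine PT.congr h fun x => ?_
    rw [decide_eq_decide]
    exact sclPt_pw2 (by norm_num) (by omega)

end Pool.Agent.H83.SCL
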