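import Pool.Agent.H83.SCL.TwA
import Pool.Agent.H83.SCL.Pt
/-! Scales: scale_tower. -/

namespace Pool.Agent.H83.SCL

open Pool.Agent.Lead.NTM Pool.Agent.H71.NT Pool.Agent.H79.Cx Encodable Denumerable
open Pool.Agent.H83.NT (Pl words mem_words accv AL AL_iff AccL accv_iff Coding exists_coding P3
  IsPi3 IndexSet exists_machine_of_desc mem_NTIMEPol_iff exists_time_bound closed_iff)
open Pool.Agent.H27.LD (aa ss uu mk3 inp EV exq Slowly)

theorem scale_tower : Scale fun i n => tw i (n + 4) := by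
  refine scale_of_pt sclTw_comp (fun i a b hab => sclTw_mono i (by omega)) (fun n => ?_)
    (fun i n => ?_) ?_
  · change n + 2 ≤ n + 4
    omega
  · rw [sclTw_succ]
    refine sclTw_sq (le_trans ?_ (sclTw_ge i (n + 4)))
    omega
  · have h : PT fun x : (ℕ × ℕ) × ℕ => ((x.1.1, x.1.2 + 4), x.2) :=
      PT.pair (PT.pair (by fun_prop) (by fun_prop)) (by fun_prop)
    exact PT.comp (g := fun x : (ℕ × ℕ) × ℕ => decide (x.2 = tw x.1.1 x.1.2)) pt_tw h

end Pool.Agent.H83.SCL
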