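import Pool.Agent.H83.SCL.Defs
import Pool.Agent.H83.SCL.Exact
import Pool.Agent.H83.SCL.Tw

/-! Scales: a scale of iterated exponentials above every computable function. -/

namespace Pool.Agent.H83.SCL

open Pool.Agent.Lead.NTM Pool.Agent.H71.NT Pool.Agent.H79.Cx Encodable Denumerable
open Pool.Agent.H83.NT (Pl words mem_words accv AL AL_iff AccL accv_iff Coding exists_coding P3
  IsPi3 IndexSet exists_machine_of_desc mem_NTIMEPol_iff exists_time_bound closed_iff)
open Pool.Agent.H27.LD (aa ss uu mk3 inp EV exq Slowly)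

/-! ### Sums of running times -/

/-- The sum of the running times for the lengths `< n`. -/
def sclAbove_sum (σ : ℕ → ℕ) (n : ℕ) : ℕ := Nat.rec 0 (fun j ih => ih + σ j) n

theorem sclAbove_sum_succ (σ : ℕ → ℕ) (n : ℕ) :
    sclAbove_sum σ (n + 1) = sclAbove_sum σ n + σ n := rfl

theorem sclAbove_sum_mono (σ : ℕ → ℕ) : Monotone (sclAbove_sum σ) :=
  monotone_nat_of_le_succ fun n => by
    rw [sclAbove_sum_succ]
    exact Nat.le_add_right _ _

theorem sclAbove_comp_sum {σ : ℕ → ℕ} (hσ : Computable σ) : Computable (sclAbove_sum σ) := by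
  have h : Computable₂ fun (_ : ℕ) (p : ℕ × ℕ) => p.2 + σ p.1 :=
    Primrec.nat_add.to_comp.comp (Computable.snd.comp Computable.snd)
      (hσ.comp (Computable.fst.comp Computable.snd))
  exact Computable.nat_rec (f := fun n : ℕ => n) (g := fun _ : ℕ => 0)
    (h := fun (_ : ℕ) (p : ℕ × ℕ) => p.2 + σ p.1) Computable.id (Computable.const 0) h

/-! ### The list of the histories -/

/-- One step along the list. -/
def sclAbove_st (D : Desc) (s : ℕ × ℕ) (h : List ℕ) : ℕ × ℕ :=
  if (D.valid s.1 h && D.acc h) = true then (s.1 + 1, s.2 + h.length) else s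

/-- The end of the list. -/
def sclAbove_run (D : Desc) (l : List (List ℕ)) : ℕ × ℕ := l.foldl (sclAbove_st D) (0, 0)

theorem sclAbove_run_append (D : Desc) (l : List (List ℕ)) (h : List ℕ) :
    sclAbove_run D (l ++ [h]) = sclAbove_st D (sclAbove_run D l) h := by
  unfold sclAbove_run
  rw [List.foldl_append]
  rfl

theorem sclAbove_fst_le (D : Desc) (l : List (List ℕ)) : (sclAbove_run D l).1 ≤ l.length := by
  induction l using List.reverseRecOn with
  | nil => exact le_rfl
  | append_singleton l h ih =>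
    rw [sclAbove_run_append, List.length_append, List.length_singleton]
    unfold sclAbove_st
    split_ifs
    · simpa using ih
    · omega

theorem sclAbove_snd_le' (D : Desc) (l : List (List ℕ)) (s : ℕ × ℕ) :
    (l.foldl (sclAbove_st D) s).2 ≤ s.2 + sz l := by
  induction l generalizing s with
  | nil => exact Nat.le_add_right _ _
  | cons h l ih =>
    rw [List.foldl_cons, sz_cons]
    refine (ih _).trans ?_
    have h1 := length_le_sz h
    have h2 : (sclAbove_st D s h).2 ≤ s.2 + h.length := by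
      unfold sclAbove_st
      split_ifs
      · exact le_rfl
      · exact Nat.le_add_right _ _
    omega

theorem sclAbove_sz_take (l : List (List ℕ)) (i : ℕ) : sz (l.take i) ≤ sz l := by
  induction l generalizing i with
  | nil => simp
  | cons h l ih =>
    cases i with
    | zero => simp only [List.take_zero, sz_cons, sz_nil]; omega
    | succ i =>
      have h1 := ih i
      simp only [List.take_succ_cons, sz_cons]
      omega

section PTs

variable {α : Type} [Enc α]

@[fun_prop]
theorem sclAbove_pt_run (D : Desc) {l : α → List (List ℕ)} (hl : PT l) :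
    PT (fun x => sclAbove_run D (l x)) := by
  unfold sclAbove_run
  obtain ⟨Q, hQ⟩ := hl.size_le
  refine PT.foldl (f := fun (_ : α) s h => sclAbove_st D s h) ?_ hl (by fun_prop)
    (3 + 4 * Q) ?_
  · unfold sclAbove_st
    fun_prop
  · intro a i _
    have h2 := sclAbove_fst_le D ((l a).take i)
    have h3 := sclAbove_snd_le' D ((l a).take i) (0, 0)
    have h4 := hQ a
    have h5 : ((l a).take i).length ≤ (l a).length := by
      rw [List.length_take]; exact min_le_right _ _
    have h6 := length_le_sz (l a)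
    have h7 := sclAbove_sz_take (l a) i
    show sz (sclAbove_run D ((l a).take i)) ≤ _
    have h8 : (sclAbove_run D ((l a).take i)).2 ≤ sz ((l a).take i) := by
      simpa [sclAbove_run] using h3
    rw [sz_pair, sz_nat, sz_nat]
    simp only [Polynomial.eval_add, Polynomial.eval_mul, Polynomial.eval_ofNat]
    omega

end PTs

section Run

variable {D : Desc} {σ : ℕ → ℕ}
  (hD : ∀ n s, (∃ h : List ℕ, h.length = s ∧ D.valid n h = true ∧ D.acc h = true) ↔ s = σ n)

include hD

theorem sclAbove_run_spec (l : List (List ℕ)) (h : (sclAbove_run D l).1 = l.length) :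
    (sclAbove_run D l).2 = sclAbove_sum σ l.length := by
  induction l using List.reverseRecOn with
  | nil => rfl
  | append_singleton l x ih =>
    have h1 := sclAbove_fst_le D l
    rw [sclAbove_run_append, List.length_append, List.length_singleton] at h ⊢
    rw [sclAbove_sum_succ]
    unfold sclAbove_st at h ⊢
    split_ifs at h ⊢ with hv
    · simp only at h ⊢
      have h2 : (sclAbove_run D l).1 = l.length := by omega
      rw [Bool.and_eq_true] at hv
      have h3 : x.length = σ (sclAbove_run D l).1 := (hD _ _).1 ⟨x, rfl, hv.1, hv.2⟩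
      rw [ih h2, h3, h2]
    · omega

theorem sclAbove_exists (n : ℕ) : ∃ l : List (List ℕ), l.length = n ∧
    sclAbove_run D l = (n, sclAbove_sum σ n) ∧
    ∀ x ∈ l, x.length ≤ sclAbove_sum σ n ∧ ∀ ρ ∈ x, ρ < D.nr := by
  induction n with
  | zero => exact ⟨[], rfl, rfl, by simp⟩
  | succ n ih =>
    obtain ⟨l, hl, hr, hx⟩ := ih
    obtain ⟨x, hxl, hxv, hxa⟩ := (hD n (σ n)).2 rfl
    refine ⟨l ++ [x], by simp [hl], ?_, ?_⟩
    · rw [sclAbove_run_append, hr]
      unfold sclAbove_st
      rw [if_pos (by rw [Bool.and_eq_true]; exact ⟨hxv, hxa⟩), hxl, sclAbove_sum_succ]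
    · intro y hy
      rw [sclAbove_sum_succ]
      rw [List.mem_append, List.mem_singleton] at hy
      rcases hy with hy | rfl
      · obtain ⟨h1, h2⟩ := hx y hy
        exact ⟨by omega, h2⟩
      · exact ⟨by omega, Desc.lt_of_valid hxv⟩

end Run

/-! ### The verification function -/

/-- The verification function. -/
def sclAbove_ver (D : Desc) (z : ℕ) (c : List (List ℕ)) : Bool :=
  (decide (Nat.pair (Nat.pair (Desc.at2 c 0 0) (Desc.at2 c 0 1)) (Desc.at2 c 0 2) = z) &&
  (decide ((c.drop 1).length = Desc.at2 c 0 1 + 1) &&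
  decide ((sclAbove_run D (c.drop 1)).1 = (c.drop 1).length))) &&
  decide (Desc.at2 c 0 2 = tw (Desc.at2 c 0 0) (Desc.at2 c 0 1 + 4 + (sclAbove_run D (c.drop 1)).2))

/-- The verification function on lists of bits. -/
def sclAbove_verB (D : Desc) (x : ℕ × List Bool) : Bool := sclAbove_ver D x.1 (decLL (parse x.2))

theorem sclAbove_pt_verB (D : Desc) : PT (sclAbove_verB D) := by
  show PT fun x => sclAbove_verB D x
  unfold sclAbove_verB sclAbove_ver
  refine PT.and' (by fun_prop) ?_
  exact pt_tw.comp (f := fun x : ℕ × List Bool => ((Desc.at2 (decLL (parse x.2)) 0 0,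
    Desc.at2 (decLL (parse x.2)) 0 1 + 4 + (sclAbove_run D ((decLL (parse x.2)).drop 1)).2),
    Desc.at2 (decLL (parse x.2)) 0 2)) (by fun_prop)

/-! ### Iterated exponentials -/

theorem sclAbove_tw_succ (i v : ℕ) : tw (i + 1) v = 2 ^ tw i v := by
  unfold tw
  rw [Function.iterate_succ_apply']

theorem sclAbove_tw_zero (v : ℕ) : tw 0 v = v := rfl

theorem sclAbove_tw_mono (i : ℕ) : Monotone (tw i) := by
  induction i with
  | zero => exact fun a b h => h
  | succ i ih =>
    intro a b h
    rw [sclAbove_tw_succ, sclAbove_tw_succ]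
    exact Nat.pow_le_pow_right (by norm_num) (ih h)

theorem sclAbove_le_tw (i v : ℕ) : v ≤ tw i v := by
  induction i with
  | zero => exact le_rfl
  | succ i ih =>
    rw [sclAbove_tw_succ]
    exact ih.trans Nat.lt_two_pow_self.le

theorem sclAbove_sq {x : ℕ} (h : 4 ≤ x) : x ^ 2 ≤ 2 ^ x := by
  induction x, h using Nat.le_induction with
  | base => norm_num
  | succ x hx ih =>
    rw [pow_succ 2 x]
    have h1 : (x + 1) ^ 2 = x ^ 2 + 2 * x + 1 := by ring
    have h2 : 2 * x + 1 ≤ x ^ 2 := by nlinarith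
    omega

theorem sclAbove_primrec_tw : Primrec₂ tw := by
  have hpow : Primrec₂ ((· ^ ·) : ℕ → ℕ → ℕ) := Primrec₂.unpaired'.1 Nat.Primrec.pow
  have h : Primrec₂ fun (_ : ℕ × ℕ) (s : ℕ) => 2 ^ s :=
    hpow.comp (Primrec.const 2) Primrec.snd
  exact Primrec.nat_iterate (f := fun p : ℕ × ℕ => p.1) (g := fun p : ℕ × ℕ => p.2)
    (h := fun (_ : ℕ × ℕ) (s : ℕ) => 2 ^ s) Primrec.fst Primrec.snd h

theorem sclAbove_pair_le {a b X : ℕ} (ha : a ≤ X) (hb : b ≤ X) : Nat.pair a b ≤ (X + 1) ^ 2 := by
  have h1 := Nat.pair_lt_max_add_one_sq a b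
  have h2 : (max a b + 1) ^ 2 ≤ (X + 1) ^ 2 :=
    Nat.pow_le_pow_left (by have := max_le ha hb; omega) 2
  omega

theorem exists_scale_above {g : ℕ → ℕ} (hg : Computable g) : ∃ b : ℕ → ℕ, Computable b ∧
    (∀ n, g n ≤ b n) ∧ Scale fun i n => tw i (b n) := by
  obtain ⟨M, σ, hσc, hM, hgσ⟩ := exists_exact hg
  have hD : ∀ n s, (∃ h : List ℕ, h.length = s ∧ (descM M ()).valid n h = true ∧
      (descM M ()).acc h = true) ↔ s = σ n :=
    fun n s => (acceptsIn_iff_desc M () n s).symm.trans (hM n s)
  have hbm : Monotone fun n => n + 4 + sclAbove_sum σ (n + 1) := by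
    intro a b h
    have h1 := sclAbove_sum_mono σ (Nat.succ_le_succ h)
    have h2 : sclAbove_sum σ (a + 1) ≤ sclAbove_sum σ (b + 1) := h1
    show a + 4 + sclAbove_sum σ (a + 1) ≤ b + 4 + sclAbove_sum σ (b + 1)
    omega
  have hbc : Computable fun n => n + 4 + sclAbove_sum σ (n + 1) :=
    Primrec.nat_add.to_comp.comp
      (Primrec.nat_add.to_comp.comp Computable.id (Computable.const 4))
      ((sclAbove_comp_sum hσc).comp Computable.succ)
  refine ⟨fun n => n + 4 + sclAbove_sum σ (n + 1), hbc, fun n => ?_, ?_⟩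
  · have h1 := hgσ n
    show g n ≤ n + 4 + sclAbove_sum σ (n + 1)
    rw [sclAbove_sum_succ]
    omega
  refine ⟨?_, ?_, ?_, ?_, ?_⟩
  · exact sclAbove_primrec_tw.to_comp.comp Computable.fst (hbc.comp Computable.snd)
  · exact fun i a b h => sclAbove_tw_mono i (hbm h)
  · intro n
    show n + 2 ≤ n + 4 + sclAbove_sum σ (n + 1)
    omega
  · intro i n
    show tw i (n + 4 + sclAbove_sum σ (n + 1)) ^ 2 ≤ tw (i + 1) (n + 4 + sclAbove_sum σ (n + 1))
    rw [sclAbove_tw_succ]
    refine sclAbove_sq ?_
    have h1 := sclAbove_le_tw i (n + 4 + sclAbove_sum σ (n + 1))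
    omega
  · obtain ⟨T, hT⟩ := exists_guess_machine (sclAbove_pt_verB (descM M ()))
    obtain ⟨M', hM1, hM2⟩ := hT Unit
    have hcert : ∀ i n, ∃ y : List Bool, sclAbove_verB (descM M ())
        (Nat.pair (Nat.pair i n) (tw i (n + 4 + sclAbove_sum σ (n + 1))), y) = true ∧
        y.length ≤ 20 + 6 * (i + tw i (n + 4 + sclAbove_sum σ (n + 1))) +
          (1 + (i + tw i (n + 4 + sclAbove_sum σ (n + 1)) + 1) *
            (1 + (1 + (i + tw i (n + 4 + sclAbove_sum σ (n + 1))) *
              (2 * (descM M ()).nr + 2)))) := by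
      intro i n
      obtain ⟨l, hl, hr, hx⟩ := sclAbove_exists hD (n + 1)
      have hle := sclAbove_le_tw i (n + 4 + sclAbove_sum σ (n + 1))
      obtain ⟨m, hm⟩ : ∃ m, m = tw i (n + 4 + sclAbove_sum σ (n + 1)) := ⟨_, rfl⟩
      rw [← hm] at hle ⊢
      refine ⟨cd ([i, n, m] :: l), ?_, ?_⟩
      · unfold sclAbove_verB
        have h0 : decLL (parse (cd ([i, n, m] :: l))) = [i, n, m] :: l := by
          rw [parse_cd, decLL_enc]
        show sclAbove_ver (descM M ()) _ (decLL (parse (cd ([i, n, m] :: l)))) = true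
        rw [h0]
        unfold sclAbove_ver
        have hd : ([i, n, m] :: l).drop 1 = l := rfl
        rw [hd, hr]
        have a0 : Desc.at2 ([i, n, m] :: l) 0 0 = i := rfl
        have a1 : Desc.at2 ([i, n, m] :: l) 0 1 = n := rfl
        have a2 : Desc.at2 ([i, n, m] :: l) 0 2 = m := rfl
        rw [a0, a1, a2, hl]
        simp [hm]
      · rw [length_cd]
        have e1 : sz ([i, n, m] :: l) =
            1 + (1 + (2 * i + 1) + (1 + (2 * n + 1) + (1 + (2 * m + 1) + 1))) + sz l := by
          simp only [sz_cons, sz_nil, sz_nat]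
        have e2 : sz l ≤ 1 + (n + 1) * (1 + (1 + (i + m) * (2 * (descM M ()).nr + 2))) := by
          rw [← hl]
          refine sz_list_le l _ fun x hxm => ?_
          obtain ⟨hx1, hx2⟩ := hx x hxm
          exact (sz_hist_le hx2).trans (Nat.add_le_add_left (Nat.mul_le_mul_right _ (by omega)) _)
        have e3 : (n + 1) * (1 + (1 + (i + m) * (2 * (descM M ()).nr + 2))) ≤
            (i + m + 1) * (1 + (1 + (i + m) * (2 * (descM M ()).nr + 2))) :=
          Nat.mul_le_mul_right _ (by omega)
        rw [e1]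
        omega
    refine ⟨M', T.comp (((Polynomial.X + 1) ^ 2 + 1) ^ 2 + (20 + 6 * Polynomial.X +
      (1 + (Polynomial.X + 1) * (1 + (1 + Polynomial.X *
        Polynomial.C (2 * (descM M ()).nr + 2)))))), fun i n m => ?_, fun i n => ?_⟩
    · rw [hM1, List.length_replicate]
      constructor
      · rintro ⟨y, hy⟩
        unfold sclAbove_verB sclAbove_ver at hy
        simp only [Bool.and_eq_true, decide_eq_true_eq] at hy
        obtain ⟨⟨h1, h2, h3⟩, h4⟩ := hy
        rw [Nat.pair_eq_pair, Nat.pair_eq_pair] at h1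
        obtain ⟨⟨h5, h6⟩, h7⟩ := h1
        have h8 := sclAbove_run_spec hD _ h3
        rw [h2, h6] at h8
        rw [h7, h5, h6, h8] at h4
        exact h4
      · rintro rfl
        obtain ⟨y, hy, -⟩ := hcert i n
        exact ⟨y, hy⟩
    · obtain ⟨y, hy, hyl⟩ := hcert i n
      obtain ⟨s, hs, hs'⟩ := hM2 (List.replicate (Nat.pair (Nat.pair i n)
        (tw i (n + 4 + sclAbove_sum σ (n + 1)))) ()) y (by rw [List.length_replicate]; exact hy)
      refine ⟨s, hs.trans ?_, hs'⟩
      rw [Polynomial.eval_comp, List.length_replicate]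
      refine eval_mono T ?_
      have hle := sclAbove_le_tw i (n + 4 + sclAbove_sum σ (n + 1))
      simp only [Polynomial.eval_add, Polynomial.eval_mul, Polynomial.eval_pow,
        Polynomial.eval_ofNat, Polynomial.eval_one, Polynomial.eval_X, Polynomial.eval_C]
      refine Nat.add_le_add ?_ hyl
      have p1 : Nat.pair i n ≤ (i + tw i (n + 4 + sclAbove_sum σ (n + 1)) + 1) ^ 2 :=
        sclAbove_pair_le (by omega) (by omega)
      refine sclAbove_pair_le p1 ?_
      nlinarith [Nat.zero_le i, Nat.zero_le (tw i (n + 4 + sclAbove_sum σ (n + 1)))]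

end Pool.Agent.H83.SCL
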