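import Pool.Agent.H83.SCL.Defs

/-!
Scales: the special lengths, the blocks, maxima.
-/

namespace Pool.Agent.H83.SCL

open Pool.Agent.Lead.NTM Pool.Agent.H71.NT
open Pool.Agent.H27.LD (aa ss uu mk3 inp EV exq Slowly)

theorem le_fm {f : ℕ → ℕ} {B r : ℕ} (h : r < B) : f r ≤ fm f B := by
  induction B with
  | zero => omega
  | succ B ih =>
    rw [fm_succ]
    rcases Nat.lt_succ_iff_lt_or_eq.1 h with h1 | rfl
    · exact (ih h1).trans (le_max_left _ _)
    · exact le_max_right _ _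

theorem fm_le {f : ℕ → ℕ} {B K : ℕ} (h : ∀ r < B, f r ≤ K) : fm f B ≤ K := by
  induction B with
  | zero => exact Nat.zero_le _
  | succ B ih =>
    rw [fm_succ]
    exact max_le (ih fun r hr => h r (by omega)) (h B (by omega))

theorem computable_fm {α : Type} [Primcodable α] {f : α → ℕ → ℕ} (hf : Computable₂ f)
    {B : α → ℕ} (hB : Computable B) : Computable fun a => fm (f a) (B a) := by
  have h2 : Computable₂ fun (a : α) (p : ℕ × ℕ) => max p.2 (f a p.1) :=
    Primrec.nat_max.to_comp.comp (Computable.snd.comp Computable.snd)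
      (hf.comp Computable.fst (Computable.fst.comp Computable.snd))
  exact Computable.nat_rec (f := B) (g := fun _ => 0) hB (Computable.const _) h2

theorem lv_le (r : ℕ) : lv r ≤ 2 * r := by
  have h1 := Pool.Agent.H27.LD.kk_ss_le r
  unfold lv
  omega

theorem two_le_sS (σ : ℕ → ℕ) (r : ℕ) : 2 ≤ sS σ r := by
  cases r with
  | zero => exact le_rfl
  | succ r =>
    rw [sS_succ]
    exact Nat.le_add_left _ _

theorem computable_sS {σ : ℕ → ℕ} (hσ : Computable σ) : Computable (sS σ) := by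
  have h : Computable₂ fun (_ : ℕ) (p : ℕ × ℕ) => σ (Nat.pair p.1 p.2) + 2 := by
    have h1 : Computable fun a : ℕ × (ℕ × ℕ) => Nat.pair a.2.1 a.2.2 :=
      Primrec₂.natPair.to_comp.comp (Computable.fst.comp Computable.snd)
        (Computable.snd.comp Computable.snd)
    exact Primrec.nat_add.to_comp.comp (hσ.comp h1) (Computable.const 2)
  exact Computable.nat_rec (f := fun n : ℕ => n) (g := fun _ => 2) Computable.id
    (Computable.const _) h

namespace Dat

variable (Z : Dat)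

theorem id_le0 (i n : ℕ) : n + 2 ≤ Z.G i n := by
  induction i with
  | zero => exact Z.G2 n
  | succ i ih =>
    have h1 := Z.Gsq i n
    nlinarith

theorem id_le (i n : ℕ) : n + 2 ≤ Z.G i n := Z.id_le0 i n

theorem G_le {i j : ℕ} (h : i ≤ j) (n : ℕ) : Z.G i n ≤ Z.G j n := by
  induction j with
  | zero =>
    have : i = 0 := by omega
    rw [this]
  | succ j ih =>
    rcases Nat.le_succ_iff_eq_or_le.1 h with h1 | h1
    · rw [h1]
    · have h2 := ih h1
      have h3 := Z.Gsq j n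
      have h4 := Z.id_le j n
      nlinarith

theorem pow_le (i c n : ℕ) : Z.G i n ^ 2 ^ c ≤ Z.G (i + c) n := by
  induction c with
  | zero => simp
  | succ c ih =>
    calc Z.G i n ^ 2 ^ (c + 1) = (Z.G i n ^ 2 ^ c) ^ 2 := by rw [← pow_mul, pow_succ]
      _ ≤ Z.G (i + c) n ^ 2 := Nat.pow_le_pow_left ih _
      _ ≤ Z.G (i + (c + 1)) n := Z.Gsq _ _

theorem sS_lt_succ (r : ℕ) : sS Z.σ r < sS Z.σ (r + 1) := by
  rw [sS_succ]
  have h1 := Z.hσ.2 (Nat.pair r (sS Z.σ r))
  have h2 := Nat.right_le_pair r (sS Z.σ r)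
  omega

theorem sS_strictMono : StrictMono (sS Z.σ) := strictMono_nat_of_lt_succ Z.sS_lt_succ

theorem le_sS (r : ℕ) : r ≤ sS Z.σ r := Z.sS_strictMono.id_le r

theorem exists_block {n : ℕ} (hn : 2 ≤ n) : ∃ r, sS Z.σ r ≤ n ∧ n < sS Z.σ (r + 1) := by
  classical
  have h1 : ∃ r, n < sS Z.σ r := ⟨n + 1, by
    have := Z.le_sS (n + 1)
    omega⟩
  set m := Nat.find h1 with hm
  have h2 : n < sS Z.σ m := Nat.find_spec h1
  have h3 : 0 < m := by
    rcases Nat.eq_zero_or_pos m with h0 | h0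
    · exfalso
      rw [h0] at h2
      have : sS Z.σ 0 = 2 := rfl
      omega
    · exact h0
  refine ⟨m - 1, ?_, ?_⟩
  · have := Nat.find_min h1 (show m - 1 < m by omega)
    omega
  · rw [Nat.sub_add_cancel (by omega)]
    exact h2

theorem G_lt (r : ℕ) : Z.G (2 * r) (sS Z.σ r) < sS Z.σ (r + 1) := by
  rw [sS_succ]
  have h1 := Z.hσG r (sS Z.σ r)
  omega

theorem val_lt (r : ℕ) : val Z.G Z.σ r < sS Z.σ (r + 1) :=
  (Z.G_le (lv_le r) _).trans_lt (Z.G_lt r)

theorem eq_of_block {n r r' : ℕ} (h1 : sS Z.σ r ≤ n) (h2 : n < sS Z.σ (r + 1))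
    (h1' : sS Z.σ r' ≤ n) : r' ≤ r := by
  by_contra h3
  have h4 : r + 1 ≤ r' := by omega
  have h5 : sS Z.σ (r + 1) ≤ sS Z.σ r' := Z.sS_strictMono.monotone h4
  omega

end Dat

end Pool.Agent.H83.SCL
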