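import Pool.Agent.H27.LD.Main

/-!
Scales of time bounds: definitions, and the data of the construction of the time bounds `tX x`.
-/

namespace Pool.Agent.H83.SCL

open Pool.Agent.Lead.NTM
open Pool.Agent.H71.NT (kk dd IsTime)
open Pool.Agent.H83.NT (Pl words accv P3 IsPi3 IndexSet)
open Pool.Agent.H27.LD (aa ss uu mk3 inp EV exq Slowly)

/-- A scale of time bounds: a uniformly computable sequence `G 0 ≤ G 1 ≤ …` of nondecreasing
functions, `n + 2 ≤ G 0 n`, `(G i n)² ≤ G (i + 1) n`, which is uniformly honest: the triples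
`(i, n, G i n)`, written in unary, are accepted by a nondeterministic machine within polynomial
time in `i + G i n`, and no other triples are accepted. -/
structure Scale (G : ℕ → ℕ → ℕ) : Prop where
  comp : Computable₂ G
  mono : ∀ i, Monotone (G i)
  two : ∀ n, n + 2 ≤ G 0 n
  sq : ∀ i n, G i n ^ 2 ≤ G (i + 1) n
  honest : ∃ (M : Machine Unit) (p : Polynomial ℕ),
    (∀ i n m, Accepts M (List.replicate (Nat.pair (Nat.pair i n) m) ()) ↔ m = G i n) ∧
    ∀ i n, ∃ s ≤ p.eval (i + G i n),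
      AcceptsIn M (List.replicate (Nat.pair (Nat.pair i n) (G i n)) ()) s

/-- The union of the classes `NTIME(Pol (G i))`. -/
def UPol (A : Type) (G : ℕ → ℕ → ℕ) : Set (Set (List A)) := {L | ∃ i, L ∈ NTIMEPol A (G i)}

/-- The window of a scale: `G 0 ≤ t`, `t n ≤ G (h n) n`, and each `G i` is eventually `≤ t`. -/
def Near (G : ℕ → ℕ → ℕ) (h t : ℕ → ℕ) : Prop :=
  (∀ n, G 0 n ≤ t n ∧ t n ≤ G (h n) n) ∧ ∀ i, ∀ᶠ n in Filter.atTop, G i n ≤ t n

/-- The special lengths. -/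
def sS (σ : ℕ → ℕ) (r : ℕ) : ℕ := Nat.rec 2 (fun i ih => σ (Nat.pair i ih) + 2) r

theorem sS_succ (σ : ℕ → ℕ) (r : ℕ) : sS σ (r + 1) = σ (Nat.pair r (sS σ r)) + 2 := rfl

/-- The level of a stage. -/
def lv (r : ℕ) : ℕ := r + kk (ss r)

/-- The value of a stage. -/
def val (G : ℕ → ℕ → ℕ) (σ : ℕ → ℕ) (r : ℕ) : ℕ := G (lv r) (sS σ r)

/-- The part of the test at the stage `r` which does not depend on `x`: the machine `dd (ss r)`
accepts `1ⁿ`, `n = sS σ r`, within `val r` steps. -/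
def WV (G : ℕ → ℕ → ℕ) (σ : ℕ → ℕ) (r : ℕ) : Prop :=
  0 < r ∧ ∃ h : List ℕ, h.length ≤ val G σ r ∧
    (dd (ss r)).valid (sS σ r) h = true ∧ (dd (ss r)).acc h = true

/-- The data of the construction. -/
structure Dat where
  /-- the scale -/
  G : ℕ → ℕ → ℕ
  /-- the slow function -/
  h : ℕ → ℕ
  /-- the running time of the machine of the chain -/
  σ : ℕ → ℕ
  /-- the honest machine of the scale -/
  D : Pool.Agent.H71.NT.Desc
  pD : Polynomial ℕ
  /-- the machine of the chain -/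
  D2 : Pool.Agent.H71.NT.Desc
  /-- the event machine -/
  E : Pool.Agent.H71.NT.Desc
  /-- the matrix of the `Π⁰₃` set -/
  W : P3
  Gc : Computable₂ G
  Gm : ∀ i, Monotone (G i)
  G2 : ∀ n, n + 2 ≤ G 0 n
  Gsq : ∀ i n, G i n ^ 2 ≤ G (i + 1) n
  hD : ∀ i n m, (∃ y : List ℕ, D.valid (Nat.pair (Nat.pair i n) m) y = true ∧ D.acc y = true) ↔
    m = G i n
  hDp : ∀ i n, ∃ y : List ℕ, y.length ≤ pD.eval (i + G i n) ∧
    D.valid (Nat.pair (Nat.pair i n) (G i n)) y = true ∧ D.acc y = true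
  hm : Monotone h
  h1 : ∀ n, 1 ≤ h n
  σc : Computable σ
  hσ : IsTime D2 σ
  hσh : ∀ r n, 2 * r + 4 ≤ h (σ (Nat.pair r n) + 2)
  hσG : ∀ r n, G (2 * r) n ≤ σ (Nat.pair r n)
  hE : ∀ x a s, (∀ b ≤ s, ∃ c, W.R x a b c = false) ↔
    ∃ y : List ℕ, E.valid (inp x a s) y = true ∧ E.acc y = true
  hEu : ∀ (z : ℕ) (y y' : List ℕ), E.valid z y = true → E.acc y = true → E.valid z y' = true →
    E.acc y' = true → y.length = y'.length
  hEc : ComputablePred fun q : ℕ × ℕ =>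
    ∃ y : List ℕ, y.length = q.2 ∧ E.valid q.1 y = true ∧ E.acc y = true

/-- The maximum of `f` on the numbers `< B`. -/
def fm (f : ℕ → ℕ) (B : ℕ) : ℕ := Nat.rec (motive := fun _ => ℕ) 0 (fun r ih => max ih (f r)) B

theorem fm_succ (f : ℕ → ℕ) (B : ℕ) : fm f (B + 1) = max (fm f B) (f B) := rfl

namespace Dat

variable (Z : Dat)

/-- The test at the stage `r`. -/
def WR (x r : ℕ) : Prop := EV Z.E x r ∧ WV Z.G Z.σ r

/-- The requirement `e` exploits the standard time bound in the block `r`. -/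
def ExD (e r : ℕ) : Prop :=
  ∃ n, sS Z.σ r ≤ n ∧ n < sS Z.σ (r + 1) ∧ exq e n (Z.G r n) (Z.G e n)

/-- The requirement `e` exploits the raised time bound in the block `r`. -/
def ExR (e r : ℕ) : Prop :=
  ∃ n, sS Z.σ r ≤ n ∧ n < sS Z.σ (r + 1) ∧
    exq e n (max (Z.G r n) (val Z.G Z.σ r)) (Z.G e n)

/-- The requirement `e` is active in the block `r`. -/
def Act (x e r : ℕ) : Prop :=
  0 < r ∧ ((¬ Z.WR x r ∧ Z.ExD e r) ∨ (Z.WR x r ∧ e < aa r ∧ Z.ExR e r))

/-- The requirement `e` acts in the block `r` (for the first and only time). -/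
def Blk (x e r : ℕ) : Prop := Z.Act x e r ∧ ∀ r' < r, ¬ Z.Act x e r'

/-- The time bound is raised at the stage `r`. -/
def Ra (x r : ℕ) : Prop := Z.WR x r ∧ ∀ e < aa r, ¬ Z.Blk x e r

/-- The level `j` is allowed in the block `r`: it is at most `r`, and no requirement `< j` acts in
this block or in the next one. -/
def OK (x j r : ℕ) : Prop := j ≤ r ∧ ∀ e < j, ¬ Z.Blk x e r ∧ ¬ Z.Blk x e (r + 1)

/-- The number `z = ((j, r), n')` gives a contribution to the time bound at `n`. -/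
def LC (x n z : ℕ) : Prop :=
  z.unpair.2 ≤ n ∧ sS Z.σ z.unpair.1.unpair.2 ≤ z.unpair.2 ∧
    z.unpair.2 < sS Z.σ (z.unpair.1.unpair.2 + 1) ∧ Z.OK x z.unpair.1.unpair.1 z.unpair.1.unpair.2

open Classical in
/-- The time bounds. -/
noncomputable def tX (x n : ℕ) : ℕ :=
  max (Z.G 0 n) (max
    (fm (fun z => if Z.LC x n z then Z.G z.unpair.1.unpair.1 z.unpair.2 else 0)
      (Nat.pair (Nat.pair n n) n + 1))
    (fm (fun r => if sS Z.σ r ≤ n ∧ Z.Ra x r then val Z.G Z.σ r else 0) (n + 1)))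

/-- The languages of the negative case. -/
def VX (x a n : ℕ) : Prop := ∃ r, sS Z.σ r = n ∧ aa r = a ∧ Z.WR x r

end Dat

/-- `S` is `Π⁰₃`-complete under many-one reductions. -/
def Pi3Complete (S : Set ℕ) : Prop :=
  IsPi3 S ∧ ∀ S' : Set ℕ, IsPi3 S' → ∃ f : ℕ → ℕ, Computable f ∧ ∀ x, x ∈ S' ↔ f x ∈ S

/-- `NEXPTIME`. -/
def NEXP (A : Type) : Set (Set (List A)) := {L | ∃ k : ℕ, L ∈ NTIMEPol A (fun n => 2 ^ n ^ k)}

/-- Iterated exponentials. -/
def tw (i v : ℕ) : ℕ := (fun s => 2 ^ s)^[i] v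

end Pool.Agent.H83.SCL
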