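import Pool.Agent.H83.SCL.Stage
import Pool.Agent.H83.SCL.Ver

/-!
Scales: the negative case: `NTIME(Pol tX)` is not closed.
-/

namespace Pool.Agent.H83.SCL

open Pool.Agent.Lead.NTM Pool.Agent.H71.NT Pool.Agent.H79.Cx Encodable Denumerable
open Pool.Agent.H83.NT (Pl words mem_words accv AL AL_iff AccL accv_iff Coding exists_coding P3
  IsPi3 IndexSet exists_machine_of_desc mem_NTIMEPol_iff exists_time_bound closed_iff)
open Pool.Agent.H27.LD (aa ss uu mk3 inp EV exq Slowly)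

namespace Dat

variable (Z : Dat)

private theorem sclNeg_mem (x a : ℕ) (A : Type) [Finite A] :
    {w : List A | Z.VX x a w.length} ∈ NTIMEPol A (Z.tX x) := by
  classical
  obtain ⟨f, hf, hfV, Q, hQ⟩ := exists_verX Z x a
  obtain ⟨T, hT⟩ := exists_guess_machine hf
  obtain ⟨M, hM, hM'⟩ := hT A
  obtain ⟨R, hR⟩ := (Z.finite_blocked x a).bddAbove
  obtain ⟨K, hK⟩ := exists_time_bound M (sS Z.σ (R + 1))
  have hLM : ∀ w : List A, Z.VX x a w.length ↔ Accepts M w := by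
    intro w
    rw [hM, hfV]
  refine ⟨M, T.comp (Polynomial.X + Q.comp (Polynomial.X + Polynomial.X)) +
    Polynomial.C K, hLM, fun w hw => ?_⟩
  simp only [Polynomial.eval_comp, Polynomial.eval_add, Polynomial.eval_X, Polynomial.eval_C]
  obtain ⟨r, hr, ha, hWR⟩ := id hw
  by_cases hRa : Z.Ra x r
  · obtain ⟨y, hy, hyl⟩ := hQ r ha hWR
    rw [hr] at hy hyl
    obtain ⟨s, hs', hacc⟩ := hM' w y hy
    refine ⟨s, hs'.trans ?_, hacc⟩
    refine le_trans ?_ (Nat.le_add_right _ _)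
    have hG : Z.G 0 w.length ≤ Z.tX x w.length := Z.G_le_tX x _
    have h2 : w.length ≤ Z.tX x w.length := by
      have := Z.id_le 0 w.length
      omega
    have h3 : val Z.G Z.σ r ≤ Z.tX x w.length := Z.val_le_tX (n := w.length) hr.le hRa
    exact eval_mono T (Nat.add_le_add h2 (hyl.trans (eval_mono Q (Nat.add_le_add h2 h3))))
  · have h1 : r ≤ R := hR ⟨ha, hWR, hRa⟩
    have h2 : sS Z.σ r < sS Z.σ (R + 1) := Z.sS_strictMono (by omega)
    obtain ⟨s, h3, h4⟩ := hK w (by omega) ((hLM w).1 hw)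
    exact ⟨s, by omega, h4⟩

private theorem sclNeg_not_mem {x a : ℕ} (ha : ¬ ∃ b, ∀ c, Z.W.R x a b c = true) (A : Type)
    [Finite A] [Nonempty A] : {w : List A | Z.VX x a w.length}ᶜ ∉ NTIMEPol A (Z.tX x) := by
  classical
  rintro ⟨M, p, hM, hp⟩
  obtain ⟨b⟩ := ‹Nonempty A›
  obtain ⟨k, hk⟩ := exists_pow_bound' p
  obtain ⟨s, hsB, hsk, hsd⟩ := exists_index_desc k (descM M b) 1
  have hev : ∀ b ≤ s, ∃ c, Z.W.R x a b c = false := by
    intro b _
    by_contra h
    push Not at h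
    exact ha ⟨b, fun c => by simpa using h c⟩
  obtain ⟨z, hzv, hza⟩ := (Z.hE x a s).1 hev
  set r := mk3 a s z.length with hr
  have hra : aa r = a := Pool.Agent.H27.LD.aa_mk3 _ _ _
  have hrs : ss r = s := Pool.Agent.H27.LD.ss_mk3 _ _ _
  have hru : uu r = z.length := Pool.Agent.H27.LD.uu_mk3 _ _ _
  set n := sS Z.σ r with hn
  have hsr : s ≤ r := hrs ▸ Pool.Agent.H27.LD.ss_le r
  have hr0 : 0 < r := by omega
  have hval : val Z.G Z.σ r = Z.G (r + k) n := by
    unfold val lv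
    rw [hrs, hsk]
  have hE : EV Z.E x r := ⟨z, hru.symm, by rw [hra, hrs]; exact hzv, hza⟩
  have hV : Z.WR x r ↔ ∃ j ≤ Z.G (r + k) n, AcceptsIn M (List.replicate n b) j := by
    constructor
    · rintro ⟨-, -, y, hy, hyv, hya⟩
      rw [hval] at hy
      rw [hrs, hsd] at hyv hya
      exact ⟨y.length, hy, (acceptsIn_iff_desc M b n _).2 ⟨y, rfl, hyv, hya⟩⟩
    · rintro ⟨j, hj, hacc⟩
      obtain ⟨y, hyl, hyv, hya⟩ := (acceptsIn_iff_desc M b n _).1 hacc
      refine ⟨hE, hr0, y, ?_, ?_, ?_⟩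
      · rw [hval, hyl]; exact hj
      · rw [hrs, hsd]; exact hyv
      · rw [hrs, hsd]; exact hya
  have hVX : Z.VX x a n ↔ Z.WR x r := by
    constructor
    · rintro ⟨r', h1, -, h2⟩
      rwa [Z.sS_strictMono.injective h1] at h2
    · intro h
      exact ⟨r, rfl, hra, h⟩
  have hlen : (List.replicate n b).length = n := List.length_replicate
  by_cases hv : Z.WR x r
  · obtain ⟨j, -, hacc⟩ := hV.1 hv
    have h2 : List.replicate n b ∈ ({w : List A | Z.VX x a w.length})ᶜ := (hM _).2 ⟨j, hacc⟩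
    refine h2 ?_
    show Z.VX x a (List.replicate n b).length
    rw [hlen]
    exact hVX.2 hv
  · have h2 : List.replicate n b ∈ ({w : List A | Z.VX x a w.length})ᶜ := by
      intro h3
      have h4 : Z.VX x a (List.replicate n b).length := h3
      rw [hlen] at h4
      exact hv (hVX.1 h4)
    obtain ⟨j, hj, hacc⟩ := hp _ h2
    refine hv (hV.2 ⟨j, hj.trans ?_, hacc⟩)
    rw [hlen]
    have h5 := Z.tX_le_of_not (n := n) (r := r) le_rfl (Z.sS_strictMono (Nat.lt_succ_self r))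
      (fun h => hv h.1)
    have h6 : n + 2 ≤ Z.tX x n := (Z.id_le 0 n).trans (Z.G_le_tX x n)
    have h7 : k ≤ 2 ^ k := Nat.lt_two_pow_self.le
    calc p.eval (Z.tX x n) ≤ Z.tX x n ^ k := hk _ (by omega)
      _ ≤ Z.G r n ^ k := Nat.pow_le_pow_left h5 _
      _ ≤ Z.G r n ^ 2 ^ k := Nat.pow_le_pow_right (by omega) h7
      _ ≤ Z.G (r + k) n := Z.pow_le r k n

theorem neg_case {x : ℕ} (hx : x ∉ Z.W.set) (A : Type) [Finite A] [Nonempty A] :
    ∃ L ∈ NTIMEPol A (Z.tX x), Lᶜ ∉ NTIMEPol A (Z.tX x) := by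
  have hx' : ∃ a, ¬ ∃ b, ∀ c, Z.W.R x a b c = true := by
    by_contra h
    push Not at h
    exact hx fun a => (h a).imp fun b hb c => by simpa using hb c
  obtain ⟨a, ha⟩ := hx'
  exact ⟨_, Z.sclNeg_mem x a A, Z.sclNeg_not_mem ha A⟩

end Dat

end Pool.Agent.H83.SCL
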