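import Pool.Agent.H83.SCL.Defs
import Pool.Agent.H83.SCL.Stage

/-!
Scales: the positive case `NTIME(Pol (tX x)) = U`.
-/

namespace Pool.Agent.H83.SCL

open Pool.Agent.Lead.NTM Pool.Agent.H71.NT Pool.Agent.H79.Cx Encodable Denumerable
open Pool.Agent.H83.NT (Pl words mem_words accv AL AL_iff AccL accv_iff Coding exists_coding P3
  IsPi3 IndexSet exists_machine_of_desc mem_NTIMEPol_iff exists_time_bound closed_iff)
open Pool.Agent.H27.LD (aa ss uu mk3 inp EV exq Slowly)

/-- Acceptance is monotone in the value of the time bound. -/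
theorem sclPos_accv_mono {z : ℕ × ℕ} {u : List ℕ} {v v' : ℕ} (h : v ≤ v')
    (hv : accv z u v = true) : accv z u v' = true := by
  obtain ⟨i, d⟩ := z
  rw [accv_iff] at hv ⊢
  obtain ⟨s, hs, hs'⟩ := hv
  exact ⟨s, hs.trans (Pool.Agent.H83.NT.Pl_mono h), hs'⟩

namespace Dat

variable (Z : Dat)

/-- A machine obeying the time bound is never active. -/
theorem sclPos_not_act {x m i d : ℕ} {A : Type} (E : Coding A m)
    (h : ∀ (w : List A) (s : ℕ), AL i (w.map E.e) s = true →
      accv (i, d) (w.map E.e) (Z.tX x w.length) = true) (r : ℕ) :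
    ¬ Z.Act x (Nat.pair m (Nat.pair i d)) r := by
  induction r using Nat.strong_induction_on with
  | _ r ih =>
    intro hact
    have hblk : Z.Blk x (Nat.pair m (Nat.pair i d)) r := ⟨hact, ih⟩
    -- a word accepted in the block, but not within the bound of the requirement
    have hex : ∃ (n v : ℕ), sS Z.σ r ≤ n ∧ n < sS Z.σ (r + 1) ∧
        exq (Nat.pair m (Nat.pair i d)) n v (Z.G (Nat.pair m (Nat.pair i d)) n) := by
      rcases hact.2 with h1 | h1
      · obtain ⟨n, hn1, hn2, hn3⟩ := h1.2
        exact ⟨n, _, hn1, hn2, hn3⟩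
      · obtain ⟨n, hn1, hn2, hn3⟩ := h1.2.2
        exact ⟨n, _, hn1, hn2, hn3⟩
    obtain ⟨n, v, hn1, hn2, u, hu, hu1, hu2⟩ := hex
    simp only [Nat.unpair_pair] at hu hu1 hu2
    obtain ⟨w, hw, rfl⟩ := E.exists_word hu
    rw [accv_iff] at hu1
    obtain ⟨s, -, hs⟩ := hu1
    have h1 := h w s (AL_iff.2 hs)
    have h2 : Z.tX x w.length ≤ Z.G (Nat.pair m (Nat.pair i d)) n := by
      rw [hw]
      exact Z.tX_le_of_blk hn1 hn2 hblk
    have h3 := sclPos_accv_mono h2 h1
    rw [hu2] at h3
    exact absurd h3 (by simp)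

theorem pos_case {x : ℕ} (hx : x ∈ Z.W.set) (A : Type) [Finite A] :
    NTIMEPol A (Z.tX x) = UPol A Z.G := by
  classical
  refine Set.Subset.antisymm (fun L hL => ?_) fun L hL => ?_
  · obtain ⟨m, ⟨E⟩⟩ := exists_coding A
    obtain ⟨i, d, h1, h2⟩ := (mem_NTIMEPol_iff E).1 hL
    set e := Nat.pair m (Nat.pair i d) with he
    -- large lengths
    have hfin : ({r | aa r ≤ e ∧ Z.WR x r} : Set ℕ).Finite := by
      have h3 : ({r | aa r ≤ e ∧ Z.WR x r} : Set ℕ) =
          ⋃ a ∈ {a : ℕ | a ≤ e}, {r | aa r = a ∧ Z.WR x r} := by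
        ext r
        simp
      rw [h3]
      exact (Set.finite_le_nat e).biUnion fun a _ => Z.finite_WR (hx a)
    obtain ⟨R, hR⟩ := hfin.bddAbove
    obtain ⟨M, hM⟩ := exists_machine_of_desc E.inj E.lt E.surj
      (ofNat Pool.Agent.H83.NT.Desc i)
    obtain ⟨K, hK⟩ := exists_time_bound M (max 2 (sS Z.σ (R + 1)))
    have hpl : ∀ v, ((Polynomial.X + Polynomial.C d) ^ d + Polynomial.C K : Polynomial ℕ).eval v =
        Pl d v + K := by
      intro v
      unfold Pl
      simp
    have hLM : ∀ w, w ∈ L ↔ Accepts M w := by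
      intro w
      constructor
      · intro hw
        have h3 := (h1 w).1 hw
        rw [accv_iff] at h3
        obtain ⟨s, -, hs⟩ := h3
        exact ⟨s, (hM w s).2 hs⟩
      · rintro ⟨s, hs⟩
        exact (h1 w).2 (h2 w s (AL_iff.2 ((hM w s).1 hs)))
    refine ⟨e, M, (Polynomial.X + Polynomial.C d) ^ d + Polynomial.C K, hLM, fun w hw => ?_⟩
    rw [hpl]
    rcases Nat.lt_or_ge w.length (max 2 (sS Z.σ (R + 1))) with hlt | hge
    · obtain ⟨s, h3, h4⟩ := hK w hlt ((hLM w).1 hw)
      exact ⟨s, by omega, h4⟩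
    · have h3 := (h1 w).1 hw
      have key : accv (i, d) (w.map E.e) (Z.G e w.length) = true := by
        obtain ⟨r, hr1, hr2⟩ := Z.exists_block (n := w.length) (by omega)
        have hrR : R < r := by
          by_contra h4
          have h5 : sS Z.σ (r + 1) ≤ sS Z.σ (R + 1) := Z.sS_strictMono.monotone (by omega)
          omega
        have hmem : w.map E.e ∈ words m w.length := by
          rw [mem_words]
          exact ⟨by simp, by simpa using fun a _ => E.lt a⟩
        by_cases hWR : Z.WR x r
        · have hea : e < aa r := by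
            by_contra h4
            have h5 : r ≤ R := hR ⟨by omega, hWR⟩
            omega
          have h4 := sclPos_accv_mono (Z.tX_le_of hr1 hr2) h3
          by_contra h5
          refine Z.sclPos_not_act E h2 r ⟨by omega, Or.inr ⟨hWR, hea, w.length, hr1, hr2,
            w.map E.e, ?_, ?_, ?_⟩⟩
          · simpa only [Nat.unpair_pair] using hmem
          · simp only [Nat.unpair_pair]
            exact h4
          · simp only [Nat.unpair_pair]
            simpa using h5
        · have h4 := sclPos_accv_mono (Z.tX_le_of_not hr1 hr2 fun h5 => hWR h5.1) h3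
          by_contra h5
          refine Z.sclPos_not_act E h2 r ⟨by omega, Or.inl ⟨hWR, w.length, hr1, hr2,
            w.map E.e, ?_, ?_, ?_⟩⟩
          · simpa only [Nat.unpair_pair] using hmem
          · simp only [Nat.unpair_pair]
            exact h4
          · simp only [Nat.unpair_pair]
            simpa using h5
      rw [accv_iff] at key
      obtain ⟨s, h4, h5⟩ := key
      exact ⟨s, by omega, (hM w s).2 h5⟩
  · obtain ⟨i, hi⟩ := hL
    obtain ⟨N, hN⟩ := Filter.eventually_atTop.1 (Z.eventually_le x i)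
    refine mem_NTIMEPol_of_le hi (Polynomial.X + Polynomial.C (Z.G i N)) fun w _ => ?_
    rw [Polynomial.eval_add, Polynomial.eval_X, Polynomial.eval_C]
    rcases Nat.lt_or_ge w.length N with h1 | h1
    · exact (Z.Gm i h1.le).trans (Nat.le_add_left _ _)
    · exact (hN _ h1).trans (Nat.le_add_right _ _)

end Dat

end Pool.Agent.H83.SCL
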