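import Pool.Agent.H83.SCL.Defs
/-! Scales: iterated exponentials (pt_tw and lemmas for scale_tower). -/

namespace Pool.Agent.H83.SCL

open Pool.Agent.Lead.NTM Pool.Agent.H71.NT Pool.Agent.H79.Cx Encodable Denumerable
open Pool.Agent.H83.NT (Pl words mem_words accv AL AL_iff AccL accv_iff Coding exists_coding P3
  IsPi3 IndexSet exists_machine_of_desc mem_NTIMEPol_iff exists_time_bound closed_iff)
open Pool.Agent.H27.LD (aa ss uu mk3 inp EV exq Slowly)

/-- Truncated doubling computes the truncated exponential. -/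
theorem sclTw_dbl (m s : ℕ) : (fun a => min (2 * a) (m + 1))^[s] 1 = min (2 ^ s) (m + 1) := by
  induction s with
  | zero => simp
  | succ s ih =>
    rw [Function.iterate_succ_apply', ih, pow_succ]
    omega

/-- The truncated exponential runs in polynomial time. -/
theorem sclTw_exp : PT (fun p : ((ℕ × ℕ) × ℕ) × ℕ => min (2 ^ p.2) (p.1.2 + 1)) := by
  have h : PT (fun p : ((ℕ × ℕ) × ℕ) × ℕ =>
      (fun a => min (2 * a) (p.1.2 + 1))^[p.2] 1) := by
    refine PT.iterate (f := fun (p : ((ℕ × ℕ) × ℕ) × ℕ) a => min (2 * a) (p.1.2 + 1)) ?_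
      (by fun_prop) (by fun_prop) (Polynomial.X + 3) ?_
    · have h1 : PT (fun q : (((ℕ × ℕ) × ℕ) × ℕ) × ℕ => 2 * q.2 - (2 * q.2 - (q.1.1.2 + 1))) := by
        fun_prop
      refine cast (congrArg _ (funext fun q => ?_)) h1
      exact Nat.sub_sub_eq_min _ _
    · intro a i _
      rw [sclTw_dbl]
      have h1 : sz a = 1 + (1 + (1 + sz a.1.1.1 + sz a.1.1.2) + sz a.1.2) + sz a.2 := rfl
      rw [h1]
      simp only [sz_nat, Polynomial.eval_add, Polynomial.eval_X, Polynomial.eval_ofNat]
      have h2 := min_le_right (2 ^ i) (a.1.2 + 1)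
      omega
  refine cast (congrArg _ (funext fun a => ?_)) h
  exact sclTw_dbl _ _

/-- The truncated exponential. -/
def sclTw_f (m s : ℕ) : ℕ := min (2 ^ s) (m + 1)

theorem sclTw_le (m v i : ℕ) : (sclTw_f m)^[i] v ≤ max v (m + 1) := by
  cases i with
  | zero => exact le_max_left _ _
  | succ i =>
    rw [Function.iterate_succ_apply']
    exact le_trans (min_le_right _ _) (le_max_right _ _)

theorem sclTw_min (m a b : ℕ) (h : min a (m + 1) = min b (m + 1)) :
    min (2 ^ a) (m + 1) = min (2 ^ b) (m + 1) := by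
  rcases lt_or_ge a (m + 1) with h1 | h1
  · have h2 : a = b := by omega
    rw [h2]
  · have h2 : m + 1 ≤ b := by omega
    have h3 : a < 2 ^ a := Nat.lt_two_pow_self
    have h4 : b < 2 ^ b := Nat.lt_two_pow_self
    omega

theorem sclTw_iter (m v i : ℕ) : min ((sclTw_f m)^[i] v) (m + 1) = min (tw i v) (m + 1) := by
  unfold tw
  induction i with
  | zero => rfl
  | succ i ih =>
    rw [Function.iterate_succ_apply', Function.iterate_succ_apply']
    have h := sclTw_min m _ _ ih
    unfold sclTw_f at h ⊢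
    omega

theorem sclTw_iff (m v i : ℕ) : m = (sclTw_f m)^[i] v ↔ m = tw i v := by
  have h := sclTw_iter m v i
  omega

theorem pt_tw : PT fun x : (ℕ × ℕ) × ℕ => decide (x.2 = tw x.1.1 x.1.2) := by
  have h : PT (fun x : (ℕ × ℕ) × ℕ => (sclTw_f x.2)^[x.1.1] x.1.2) := by
    refine PT.iterate (f := fun (x : (ℕ × ℕ) × ℕ) s => sclTw_f x.2 s) sclTw_exp
      (by fun_prop) (by fun_prop) (Polynomial.X + 3) ?_
    intro a i _
    have h1 : sz a = 1 + (1 + sz a.1.1 + sz a.1.2) + sz a.2 := rfl
    have h2 := sclTw_le a.2 a.1.2 i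
    rw [h1]
    simp only [sz_nat, Polynomial.eval_add, Polynomial.eval_X, Polynomial.eval_ofNat]
    have h3 : max a.1.2 (a.2 + 1) ≤ a.1.2 + a.2 + 1 := by omega
    have h4 := h2.trans h3
    change 2 * (sclTw_f a.2)^[i] a.1.2 + 1 ≤ _
    omega
  have h1 : PT (fun x : (ℕ × ℕ) × ℕ => decide (x.2 = (sclTw_f x.2)^[x.1.1] x.1.2)) :=
    PT.natEq (by fun_prop) h
  refine cast (congrArg _ (funext fun x => ?_)) h1
  rw [decide_eq_decide]
  exact sclTw_iff _ _ _

theorem sclTw_succ (i v : ℕ) : tw (i + 1) v = 2 ^ tw i v := by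
  unfold tw
  rw [Function.iterate_succ_apply']

theorem sclTw_mono (i : ℕ) : Monotone (tw i) := by
  have h : Monotone (fun s : ℕ => 2 ^ s) := fun a b hab => Nat.pow_le_pow_right (by norm_num) hab
  exact h.iterate i

theorem sclTw_ge (i v : ℕ) : v ≤ tw i v := by
  induction i with
  | zero => exact le_rfl
  | succ i ih =>
    rw [sclTw_succ]
    exact ih.trans (Nat.lt_two_pow_self).le

theorem sclTw_sq {v : ℕ} (hv : 4 ≤ v) : v ^ 2 ≤ 2 ^ v := by
  induction v, hv using Nat.le_induction with
  | base => norm_num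
  | succ n hn ih =>
    rw [pow_succ 2 n]
    nlinarith

theorem sclTw_comp : Computable₂ fun i n : ℕ => tw i (n + 4) := by
  have hpow : Primrec fun s : ℕ => 2 ^ s := by
    have h1 : Primrec fun s : ℕ => (fun a => 2 * a)^[s] 1 :=
      Primrec.nat_iterate Primrec.id (Primrec.const 1)
        (Primrec.nat_mul.comp (Primrec.const 2) Primrec.snd).to₂
    refine h1.of_eq fun s => ?_
    induction s with
    | zero => rfl
    | succ s ih => rw [Function.iterate_succ_apply', ih, pow_succ, mul_comm]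
  have h : Primrec₂ fun i n : ℕ => tw i (n + 4) := by
    unfold tw
    exact Primrec.nat_iterate Primrec.fst
      (Primrec.nat_add.comp Primrec.snd (Primrec.const 4)) (hpow.comp Primrec.snd).to₂
  exact h.to_comp

end Pool.Agent.H83.SCL
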