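import Pool.Agent.H83.SCL.Defs

/-! Scales: U of the polynomial scale is NP, U of the exponential scale is NEXPTIME. -/

namespace Pool.Agent.H83.SCL

open Pool.Agent.Lead.NTM Pool.Agent.H71.NT Pool.Agent.H79.Cx Encodable Denumerable
open Pool.Agent.H83.NT (Pl words mem_words accv AL AL_iff AccL accv_iff Coding exists_coding P3
  IsPi3 IndexSet exists_machine_of_desc mem_NTIMEPol_iff exists_time_bound closed_iff)
open Pool.Agent.H27.LD (aa ss uu mk3 inp EV exq Slowly)

theorem UPol_np (A : Type) : UPol A (fun i n => (n + 2) ^ 2 ^ i) = NTIMEPol A (fun n => n) := by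
  ext L
  constructor
  · rintro ⟨i, hi⟩
    refine mem_NTIMEPol_of_le hi ((Polynomial.X + 2) ^ 2 ^ i) fun w _ => ?_
    simp
  · intro h
    refine ⟨0, mem_NTIMEPol_of_le h Polynomial.X fun w _ => ?_⟩
    simp

private theorem sclUEq_le (i n : ℕ) :
    2 ^ (n + 2) ^ (i + 1) ≤ 2 ^ n ^ (2 * (i + 1)) + 2 ^ 3 ^ (i + 1) := by
  rcases Nat.lt_or_ge n 2 with h | h
  · have h1 : (n + 2) ^ (i + 1) ≤ 3 ^ (i + 1) := Nat.pow_le_pow_left (by omega) _
    exact (Nat.pow_le_pow_right (by norm_num) h1).trans (Nat.le_add_left _ _)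
  · have h0 : n + 2 ≤ n ^ 2 := by nlinarith
    have h1 : (n + 2) ^ (i + 1) ≤ n ^ (2 * (i + 1)) := by
      rw [pow_mul]
      exact Nat.pow_le_pow_left h0 _
    exact (Nat.pow_le_pow_right (by norm_num) h1).trans (Nat.le_add_right _ _)

theorem UPol_exp (A : Type) : UPol A (fun i n => 2 ^ (n + 2) ^ (i + 1)) = NEXP A := by
  ext L
  constructor
  · rintro ⟨i, hi⟩
    refine ⟨2 * (i + 1), mem_NTIMEPol_of_le hi
      (Polynomial.X + Polynomial.C (2 ^ 3 ^ (i + 1))) fun w _ => ?_⟩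
    rw [Polynomial.eval_add, Polynomial.eval_X, Polynomial.eval_C]
    exact sclUEq_le i w.length
  · rintro ⟨k, hk⟩
    refine ⟨k, mem_NTIMEPol_of_le hk Polynomial.X fun w _ => ?_⟩
    rw [Polynomial.eval_X]
    refine Nat.pow_le_pow_right (by norm_num) ?_
    calc w.length ^ k ≤ (w.length + 2) ^ k := Nat.pow_le_pow_left (by omega) _
      _ ≤ (w.length + 2) ^ (k + 1) := Nat.pow_le_pow_right (by omega) (by omega)

end Pool.Agent.H83.SCL
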